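import Pool.Agent.H51.SEP.Stmt

/-!
# Iterated differences
-/

set_option autoImplicit false
set_option linter.unusedSectionVars false

namespace Pool.Agent.H51.SEP

open Finset Pool.Agent.H51.QOV

variable {F : Type} [Field F] [Fintype F] [CharP F 2]

@[simp] theorem dl_nil (φ : F → F) : dl [] φ = φ := rfl

@[simp] theorem dl_cons (x : F) (l : List F) (φ : F → F) : dl (x :: l) φ = Dx x (dl l φ) := rfl

theorem dl_append (l l' : List F) (φ : F → F) : dl (l ++ l') φ = dl l (dl l' φ) := by
  unfold dl
  rw [List.foldr_append]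

theorem Dx_comm (x y : F) (φ : F → F) : Dx x (Dx y φ) = Dx y (Dx x φ) := by
  funext s
  unfold Dx
  have h1 : s + x + y = s + y + x := by ring
  rw [h1]
  ring

theorem Dx_self (x : F) (φ : F → F) : Dx x (Dx x φ) = 0 := by
  funext s
  unfold Dx
  have e : s + x + x = s := by rw [add_assoc, CharTwo.add_self_eq_zero, add_zero]
  rw [e]
  change φ s + φ (s + x) + (φ (s + x) + φ s) = 0
  have : φ s + φ (s + x) + (φ (s + x) + φ s) = (φ s + φ s) + (φ (s + x) + φ (s + x)) := by ring
  rw [this, CharTwo.add_self_eq_zero, CharTwo.add_self_eq_zero, add_zero]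

theorem Dx_zero (x : F) : Dx x (0 : F → F) = 0 := by
  funext s
  unfold Dx
  simp

theorem dl_zero (l : List F) : dl l (0 : F → F) = 0 := by
  induction l with
  | nil => rfl
  | cons x l ih => rw [dl_cons, ih, Dx_zero]

theorem dl_perm {l l' : List F} (hl : l.Perm l') (φ : F → F) : dl l φ = dl l' φ := by
  induction hl with
  | nil => rfl
  | cons x _ ih => rw [dl_cons, dl_cons, ih]
  | swap x y l => rw [dl_cons, dl_cons, dl_cons, dl_cons, Dx_comm]
  | trans _ _ ih1 ih2 => rw [ih1, ih2]

theorem dl_comm (l : List F) (x : F) (φ : F → F) : dl l (Dx x φ) = Dx x (dl l φ) := by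
  induction l with
  | nil => rfl
  | cons y l ih => rw [dl_cons, dl_cons, ih, Dx_comm]

theorem dl_comm' (l l' : List F) (φ : F → F) : dl l (dl l' φ) = dl l' (dl l φ) := by
  rw [← dl_append, ← dl_append]
  exact dl_perm List.perm_append_comm φ

/-- long differences vanish. -/
theorem dl_long (l : List F) (hl : Fintype.card F < l.length) (φ : F → F) : dl l φ = 0 := by
  have h1 : ¬ l.Nodup := fun h2 => by
    have := h2.length_le_card
    omega
  rw [← List.exists_duplicate_iff_not_nodup] at h1
  obtain ⟨x, hx⟩ := h1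
  rw [List.duplicate_iff_sublist] at hx
  obtain ⟨l', hl'⟩ := hx.exists_perm_append
  rw [dl_perm hl', dl_append]
  change Dx x (Dx x (dl l' φ)) = 0
  exact Dx_self x _

theorem DEG_proof (F : Type) [Field F] [Fintype F] [CharP F 2] : DegStmt F := by
  classical
  intro φ m hm
  obtain ⟨N, hN⟩ : ∃ N : ℕ → Prop, N = fun n => ∃ l : List F, l.length = n ∧ ∃ s, dl l φ s ≠ 0 :=
    ⟨_, rfl⟩
  have hbd : ∀ n, N n → n ≤ Fintype.card F := by
    intro n hn
    rw [hN] at hn
    obtain ⟨l, hl, s, hs⟩ := hn
    by_contra hc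
    push Not at hc
    apply hs
    rw [dl_long l (by omega) φ]
    rfl
  have hNm : N m := by
    rw [hN]
    exact hm
  obtain ⟨n, hn⟩ : ∃ n, n = Nat.findGreatest N (Fintype.card F) := ⟨_, rfl⟩
  have hn1 : N n := by
    rw [hn]
    exact Nat.findGreatest_spec (hbd m hNm) hNm
  have hn2 : ∀ n', n < n' → ¬ N n' := by
    intro n' hn' hc
    rw [hn] at hn'
    exact Nat.findGreatest_is_greatest hn' (hbd n' hc) hc
  have hmn : m ≤ n := by
    rw [hn]
    exact Nat.le_findGreatest (hbd m hNm) hNm
  rw [hN] at hn1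
  obtain ⟨l, hl, s, hs⟩ := hn1
  refine ⟨l.drop m, ?_, l.take m, ?_, s, ?_⟩
  · intro l' hl' s'
    by_contra hc
    refine hn2 (n + 1) (by omega) ?_
    rw [hN]
    refine ⟨l' ++ l.drop m, ?_, s', ?_⟩
    · rw [List.length_append, List.length_drop, hl', hl]
      omega
    · rw [dl_append]
      exact hc
  · rw [List.length_take, hl]
    omega
  · rw [← dl_append, List.take_append_drop]
    exact hs

/-! ### second differences -/

theorem sd_eq (φ : F → F) (x y : F) : sd φ x y = dl [x, y] φ 0 := by
  simp only [dl_cons, dl_nil]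
  unfold Dx sd
  simp only [zero_add]
  rw [add_comm x y]
  ring

/-- the second difference is bi-additive if the third differences vanish. -/
theorem sd_add {φ : F → F} (hφ : ∀ l : List F, l.length = 3 → ∀ s, dl l φ s = 0) (x y z : F) :
    sd φ x (y + z) = sd φ x y + sd φ x z := by
  have h1 := hφ [x, y, z] rfl 0
  simp only [dl_cons, dl_nil] at h1
  unfold Dx at h1
  simp only [zero_add] at h1
  unfold sd
  have e1 : x + y + z = x + (y + z) := by ring
  rw [e1] at h1
  have h2 : (2 : F) = 0 := CharTwo.two_eq_zero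
  linear_combination h1 - (φ (x + y) + φ (x + z) + φ x + φ y + φ z + φ 0) * h2

theorem sd_symm (φ : F → F) (x y : F) : sd φ x y = sd φ y x := by
  unfold sd
  rw [add_comm x y]
  ring

theorem sd_self (φ : F → F) (x : F) : sd φ x x = 0 := by
  unfold sd
  rw [CharTwo.add_self_eq_zero]
  have h2 : (2 : F) = 0 := CharTwo.two_eq_zero
  linear_combination (φ 0 + φ x) * h2

/-- the second difference as a bi-additive map. -/
def sdm (φ : F → F) (hφ : ∀ l : List F, l.length = 3 → ∀ s, dl l φ s = 0) : F →+ F →+ F :=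
  AddMonoidHom.mk' (fun x => AddMonoidHom.mk' (fun y => sd φ x y) fun y z => sd_add hφ x y z)
    fun x y => by
      ext z
      change sd φ (x + y) z = sd φ x z + sd φ y z
      rw [sd_symm, sd_add hφ, sd_symm φ z x, sd_symm φ z y]

theorem sdm_apply (φ : F → F) (hφ : ∀ l : List F, l.length = 3 → ∀ s, dl l φ s = 0) (x y : F) :
    sdm φ hφ x y = sd φ x y := rfl

/-- the second difference is constant. -/
theorem sd_const {φ : F → F} (hφ : ∀ l : List F, l.length = 3 → ∀ s, dl l φ s = 0) (x y s : F) :
    dl [x, y] φ s = sd φ x y := by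
  have h1 := hφ [s, x, y] rfl 0
  rw [dl_cons] at h1
  unfold Dx at h1
  rw [zero_add, ← sd_eq] at h1
  exact CharTwo.add_eq_zero.1 h1

end Pool.Agent.H51.SEP
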