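import Pool.Agent.H51.SEP.Stmt
import Pool.Agent.H51.QOV.EREL
import Pool.Agent.H85.QOV.Rep

/-!
# GK
-/

set_option autoImplicit false
set_option linter.unusedSectionVars false

namespace Pool.Agent.H51.SEP

open Finset Pool.Agent.H51.QOV

variable {F : Type} [Field F] [Fintype F] [CharP F 2] {h : ℕ} [NeZero h]

theorem coef_fsum {ι : Type} (s : Finset ι) (a : ZMod h) (ψ : ι → F → F) :
    coef a (fun x => ∑ i ∈ s, ψ i x) = ∑ i ∈ s, coef a (ψ i) := by
  unfold coef
  rw [Finset.sum_comm]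
  exact Finset.sum_congr rfl fun x _ => Finset.mul_sum _ _ _

theorem coef_mono [QF F h] (a b : ZMod h) (c : F) :
    coef a (fun x => c * fr b x) = if a = b then c else 0 := by
  rw [coef_mul_left]
  unfold coef
  have h1 : ∀ x : F, (fr a x)⁻¹ * fr b x = fr b x * (fr a x)⁻¹ := fun x => mul_comm _ _
  rw [Finset.sum_congr rfl fun x _ => h1 x, orth]
  split_ifs
  · exact mul_one c
  · exact mul_zero c

/-- the components of the adjoint. -/
def cm (a : ZMod h) (φ : F → F) : F := fr a (coef (-a) φ)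

theorem adj_rep [QF F h] (φ : F → F) (c : F) : adj h φ c = ∑ a : ZMod h, fr a c * cm a φ := by
  unfold adj
  have h1 : (fun s => tr h (c * φ s)) = fun s => ∑ a : ZMod h, fr a c * fr a (φ s) := by
    funext s
    unfold tr
    exact Finset.sum_congr rfl fun a _ => map_mul _ _ _
  rw [h1, coef_fsum]
  refine Finset.sum_congr rfl fun a _ => ?_
  rw [coef_mul_left]
  congr 1
  unfold cm
  rw [← coef_fr, neg_add_cancel]

/-- the adjoint equation. -/
theorem adj_eq [QF F h] (φ : F →+ F) (c s : F) : tr h (c * φ s) = tr h (adj h φ c * s) := by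
  let ℓ : F →+ F := AddMonoidHom.mk' (fun s => tr h (c * φ s)) fun s s' => by
    rw [map_add, mul_add, tr_add]
  exact riesz (h := h) ℓ (fun x => tr_self_sq (h := h) _) s

/-- a nonzero `{0,1}`-valued additive functional has no zero coefficient. -/
theorem coef_ne [QF F h] (ℓ : F →+ F) (hℓ : ∀ x, ℓ x ^ 2 = ℓ x) {x0 : F} (hx0 : ℓ x0 ≠ 0)
    (a : ZMod h) : coef a ℓ ≠ 0 := by
  have h1 := riesz (h := h) ℓ hℓ
  have h2 : coef (0 : ZMod h) ℓ ≠ 0 := by
    intro h3
    apply hx0
    rw [h1, h3, zero_mul, tr_zero]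
  have h3 : (ℓ : F → F) = fun x => ∑ b : ZMod h, fr b (coef (0 : ZMod h) ℓ) * fr b x := by
    funext x
    rw [h1]
    unfold tr
    exact Finset.sum_congr rfl fun b _ => map_mul _ _ _
  have h4 : coef a ℓ = fr a (coef (0 : ZMod h) ℓ) := by
    conv_lhs => rw [h3]
    rw [coef_sum]
  rw [h4]
  exact fun h5 => h2 ((fr_eq_zero a).1 h5)

section alt

variable (K : F →+ F →+ F)

theorem alt_symm (hK : ∀ x, K x x = 0) (x s : F) : K x s = K s x := by
  have h1 := hK (x + s)
  simp only [map_add, AddMonoidHom.add_apply, hK, zero_add, add_zero] at h1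
  exact (CharTwo.add_eq_zero.mp h1).symm

/-- the coefficients. -/
def ck (i j : ZMod h) : F := coef j fun x => coef i (K x)

theorem ck_symm (hK : ∀ x, K x x = 0) (i j : ZMod h) : ck K i j = ck K j i := by
  unfold ck coef
  simp only [Finset.mul_sum]
  rw [Finset.sum_comm]
  refine Finset.sum_congr rfl fun x _ => Finset.sum_congr rfl fun s _ => ?_
  rw [alt_symm K hK]
  ring

/-- the additive function `x ↦ coef i (K x)`. -/
def cf (i : ZMod h) : F →+ F := AddMonoidHom.mk' (fun x => coef i (K x)) fun x y => by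
  rw [← coef_add]
  congr 1
  funext s
  rw [map_add]
  rfl

theorem coef_zero_eq (hp : ∀ x, ∑ s : F, s⁻¹ * K x s = 0) (x : F) : coef (0 : ZMod h) (K x) = 0 := by
  unfold coef
  simp only [fr_zero]
  exact hp x

theorem ck_zero_left (hp : ∀ x, ∑ s : F, s⁻¹ * K x s = 0) (j : ZMod h) : ck K 0 j = 0 := by
  unfold ck
  have h1 : (fun x => coef (0 : ZMod h) (K x)) = fun _ => (0 : F) := by
    funext x
    exact coef_zero_eq K hp x
  rw [h1]
  unfold coef
  simp

theorem ck_zero_right (hK : ∀ x, K x x = 0) (hp : ∀ x, ∑ s : F, s⁻¹ * K x s = 0) (j : ZMod h) :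
    ck K j 0 = 0 := by
  rw [ck_symm K hK, ck_zero_left K hp]

theorem K_rep [QF F h] (x s : F) : K x s = ∑ i : ZMod h, ∑ j : ZMod h, ck K i j * fr j x * fr i s := by
  rw [lin_rep (h := h) (K x) s]
  refine Finset.sum_congr rfl fun i _ => ?_
  have h1 := lin_rep (h := h) (cf K i) x
  change coef i (K x) = ∑ j : ZMod h, ck K i j * fr j x at h1
  rw [h1, Finset.sum_mul]

theorem ck_self [QF F h] (hK : ∀ x, K x x = 0) (i : ZMod h) : ck K i i = 0 := by
  have hh : 4 ≤ h := QF.four (F := F)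
  have h1 : ∑ x : F, K x x * (fr i x * fr i x)⁻¹ = ck K i i := by
    simp only [K_rep (h := h) K, Finset.sum_mul]
    rw [Finset.sum_comm]
    have h2 : ∀ a : ZMod h, ∑ x : F, ∑ b : ZMod h, ck K a b * fr b x * fr a x *
        (fr i x * fr i x)⁻¹ = ∑ b : ZMod h, ck K a b * (if P a + P b = P i + P i then 1 else 0) := by
      intro a
      rw [Finset.sum_comm]
      refine Finset.sum_congr rfl fun b _ => ?_
      rw [← h85_orth2 (F := F), Finset.mul_sum]
      exact Finset.sum_congr rfl fun x _ => by ring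
    simp only [h2]
    rw [Finset.sum_eq_single i]
    · rw [Finset.sum_eq_single i]
      · simp
      · intro b _ hb
        rw [if_neg, mul_zero]
        intro H
        rw [P_succ] at H
        have := h85_one hh H.symm
        exact hb this.1.symm
      · simp
    · intro a _ ha
      refine Finset.sum_eq_zero fun b _ => ?_
      rw [if_neg, mul_zero]
      intro H
      rw [P_succ] at H
      have := h85_one hh H.symm
      exact ha (by simpa using this.2.symm)
    · simp
  rw [← h1]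
  exact Finset.sum_eq_zero fun x _ => by rw [hK, zero_mul]

/-- the component `m` as an additive function has coefficient zero at `m`. -/
theorem cm_coef [QF F h] (hK : ∀ x, K x x = 0) (hp : ∀ x, ∑ s : F, s⁻¹ * K x s = 0) (m : ZMod h) :
    coef m (fun x => cm m (K x)) = 0 := by
  unfold cm
  have h1 := coef_fr (F := F) (0 : ZMod h) m (fun x => coef (-m) (K x))
  rw [zero_add] at h1
  rw [h1]
  have h2 := ck_zero_right K hK hp (-m)
  unfold ck at h2
  rw [h2, map_zero]

/-- the component as an additive function. -/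
def cmf (m : ZMod h) : F →+ F := AddMonoidHom.mk' (fun x => cm m (K x)) fun x y => by
  unfold cm
  have := (cf K (-m)).map_add x y
  change coef (-m) (K (x + y)) = coef (-m) (K x) + coef (-m) (K y) at this
  rw [this, map_add]

end alt

/-- the relations. -/
theorem rel [QF F h] (G K : F →+ F →+ F)
    (pG : ∀ x, ∑ s : F, s⁻¹ * G x s = 0) (pK : ∀ x, ∑ s : F, s⁻¹ * K x s = 0)
    (H : ∀ c : F, c ≠ 0 → ∀ x y, tr h (c⁻¹ * (adj h (G x) c * adj h (K y) c)) = 0) (x y : F) :
    (∀ a b : ZMod h, a ≠ b → a ≠ 0 → a ≠ 1 → a ≠ -1 → b ≠ 0 → b ≠ 1 → b ≠ -1 →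
      cm a (G x) * cm b (K y) + cm b (G x) * cm a (K y) = 0) ∧
    (∀ a : ZMod h, a ≠ 0 → a ≠ -1 → cm a (G x) * cm a (K y) =
      (cm a (G x) * cm (-1 : ZMod h) (K y) + cm (-1 : ZMod h) (G x) * cm a (K y)) ^ 2) := by
  have h0G : cm (0 : ZMod h) (G x) = 0 := by
    unfold cm
    rw [neg_zero, coef_zero_eq G pG, map_zero]
  have h0K : cm (0 : ZMod h) (K y) = 0 := by
    unfold cm
    rw [neg_zero, coef_zero_eq K pK, map_zero]
  have h1 := EREL_proof F h (fun a b => cm a (G x) * cm b (K y))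
    (fun a => by rw [h0G, zero_mul]) (fun a => by rw [h0K, mul_zero]) (fun c hc => by
      rw [← H c hc x y, adj_rep, adj_rep, Finset.sum_mul_sum]
      congr 2
      refine Finset.sum_congr rfl fun a _ => Finset.sum_congr rfl fun b _ => ?_
      ring)
  exact ⟨h1.1, h1.2.1⟩

/-- Claim A. -/
theorem claimA [QF F h] (G K : F →+ F →+ F) (aG : ∀ x, G x x = 0) (aK : ∀ x, K x x = 0)
    (pG : ∀ x, ∑ s : F, s⁻¹ * G x s = 0) (pK : ∀ x, ∑ s : F, s⁻¹ * K x s = 0)
    (H : ∀ c : F, c ≠ 0 → ∀ x y, tr h (c⁻¹ * (adj h (G x) c * adj h (K y) c)) = 0)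
    (m : ZMod h) (m0 : m ≠ 0) (m1 : m ≠ 1) (m2 : m ≠ -1) (y0 : F) (hy0 : cm m (K y0) ≠ 0) (x y : F) :
    G x y = 0 := by
  classical
  have h2 : (2 : F) = 0 := CharTwo.two_eq_zero
  have R := rel (h := h) G K pG pK H
  obtain ⟨κ, hκ⟩ : ∃ κ, κ = cm m (K y0) := ⟨_, rfl⟩
  rw [← hκ] at hy0
  -- `Y`
  let Y : F →+ F := (AddMonoidHom.mulLeft κ⁻¹).comp (cmf G m)
  have hY : ∀ x, cm m (G x) = Y x * κ := by
    intro x
    change cm m (G x) = κ⁻¹ * cm m (G x) * κ
    field_simp
  have hY1 : ∀ x (j : ZMod h), j ≠ 0 → j ≠ 1 → j ≠ -1 → cm j (G x) = Y x * cm j (K y0) := by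
    intro x j j0 j1 j2
    by_cases hj : j = m
    · rw [hj, hY, hκ]
    · have h3 := (R x y0).1 j m hj j0 j1 j2 m0 m1 m2
      rw [hY, ← hκ] at h3
      have h4 : (cm j (G x) + Y x * cm j (K y0)) * κ = 0 := by
        linear_combination h3
      rcases mul_eq_zero.1 h4 with h5 | h5
      · exact CharTwo.add_eq_zero.1 h5
      · exact absurd h5 hy0
  have hY2 : ∀ x, Y x = (Y x * cm (-1 : ZMod h) (K y0) + cm (-1 : ZMod h) (G x)) ^ 2 := by
    intro x
    have h3 := (R x y0).2 m m0 m2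
    rw [hY, ← hκ] at h3
    have h4 : (Y x + (Y x * cm (-1 : ZMod h) (K y0) + cm (-1 : ZMod h) (G x)) ^ 2) * κ ^ 2 = 0 := by
      linear_combination h3 + (Y x * cm (-1 : ZMod h) (K y0) + cm (-1 : ZMod h) (G x)) ^ 2 * κ ^ 2 * h2
    rcases mul_eq_zero.1 h4 with h5 | h5
    · exact CharTwo.add_eq_zero.1 h5
    · exact absurd (pow_eq_zero_iff (two_ne_zero) |>.1 h5) hy0
  have hYc : coef m Y = 0 := by
    have h3 : (Y : F → F) = fun x => κ⁻¹ * cm m (G x) := rfl
    rw [h3, coef_mul_left, cm_coef G aG pG, mul_zero]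
  by_cases hY0 : ∀ x, Y x = 0
  · -- only the component `1`
    have h3 : ∀ (x : F) (b : ZMod h), b ≠ -1 → coef b (G x) = 0 := by
      intro x b hb
      have h4 : cm (-b) (G x) = 0 := by
        by_cases b0 : b = 0
        · rw [b0]
          unfold cm
          rw [neg_zero, neg_zero, coef_zero_eq G pG, map_zero]
        by_cases b1 : b = 1
        · have h5 := hY2 x
          rw [hY0, zero_mul, zero_add] at h5
          rw [b1]
          exact pow_eq_zero_iff (two_ne_zero) |>.1 h5.symm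
        · rw [hY1 x (-b) (fun h5 => b0 (neg_eq_zero.1 h5))
            (fun h5 => hb (by rw [← h5, neg_neg])) (fun h5 => b1 (neg_injective h5)), hY0, zero_mul]
      unfold cm at h4
      rw [neg_neg] at h4
      exact (fr_eq_zero _).1 h4
    have h4 : ∀ x s : F, G x s = coef (-1 : ZMod h) (G x) * fr (-1 : ZMod h) s := by
      intro x s
      rw [lin_rep (h := h) (G x) s, Finset.sum_eq_single (-1 : ZMod h)]
      · intro b _ hb
        rw [h3 x b hb, zero_mul]
      · intro hb
        exact absurd (Finset.mem_univ _) hb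
    by_cases hx : x = 0
    · rw [hx, map_zero]
      rfl
    · have h5 := aG x
      rw [h4] at h5
      rcases mul_eq_zero.1 h5 with h6 | h6
      · rw [h4, h6, zero_mul]
      · exact absurd ((fr_eq_zero _).1 h6) hx
  · exfalso
    push Not at hY0
    obtain ⟨x0, hx0⟩ := hY0
    by_cases hv : ∀ x, Y x = 0 ∨ Y x = Y x0
    · -- two values
      let ℓ : F →+ F := (AddMonoidHom.mulLeft (Y x0)⁻¹).comp Y
      have hℓ : ∀ x, ℓ x ^ 2 = ℓ x := by
        intro x
        change ((Y x0)⁻¹ * Y x) ^ 2 = (Y x0)⁻¹ * Y x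
        rcases hv x with h3 | h3
        · rw [h3]
          ring
        · rw [h3, inv_mul_cancel₀ hx0]
          ring
      have h3 := coef_ne (h := h) ℓ hℓ (x0 := x0) (by
        change (Y x0)⁻¹ * Y x0 ≠ 0
        rw [inv_mul_cancel₀ hx0]
        exact one_ne_zero) m
      apply h3
      have h4 : (ℓ : F → F) = fun x => (Y x0)⁻¹ * Y x := rfl
      rw [h4, coef_mul_left, hYc, mul_zero]
    · push Not at hv
      obtain ⟨x1, hx1, hx10⟩ := hv
      -- `λ`
      let L : F →+ F := (AddMonoidHom.mulLeft κ⁻¹).comp (cmf K m)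
      have hL : ∀ y, cm m (K y) = L y * κ := by
        intro y
        change cm m (K y) = κ⁻¹ * cm m (K y) * κ
        field_simp
      have key : ∀ y x, Y x ≠ 0 →
          Y x * (cm (-1 : ZMod h) (K y) + L y * cm (-1 : ZMod h) (K y0)) ^ 2 + L y ^ 2 = L y := by
        intro y x hx
        have h3 := (R x y).2 m m0 m2
        rw [hY, hL] at h3
        have h4 := hY2 x
        have h5 : (Y x * (cm (-1 : ZMod h) (K y) + L y * cm (-1 : ZMod h) (K y0)) ^ 2 + L y ^ 2 + L y) *
            (Y x * κ ^ 2) = 0 := by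
          linear_combination h3 + (L y ^ 2 * κ ^ 2) * h4 +
            (κ ^ 2 * (Y x * cm (-1 : ZMod h) (K y) + cm (-1 : ZMod h) (G x) * L y) ^ 2 +
              Y x ^ 2 * κ ^ 2 * cm (-1 : ZMod h) (K y) * L y * cm (-1 : ZMod h) (K y0)
              + κ ^ 2 * Y x ^ 2 * L y ^ 2 * cm (-1 : ZMod h) (K y0) ^ 2
              - Y x * cm (-1 : ZMod h) (K y) * L y * κ ^ 2 * cm (-1 : ZMod h) (G x)
              + Y x * L y ^ 2 * cm (-1 : ZMod h) (K y0) * κ ^ 2 * cm (-1 : ZMod h) (G x)) * h2
        rcases mul_eq_zero.1 h5 with h6 | h6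
        · exact CharTwo.add_eq_zero.1 h6
        · rcases mul_eq_zero.1 h6 with h7 | h7
          · exact absurd h7 hx
          · exact absurd (pow_eq_zero_iff (two_ne_zero) |>.1 h7) hy0
      have hL2 : ∀ y, L y ^ 2 = L y := by
        intro y
        have h3 := key y x0 hx0
        have h4 := key y x1 hx1
        have h5 : (Y x0 - Y x1) * (cm (-1 : ZMod h) (K y) + L y * cm (-1 : ZMod h) (K y0)) ^ 2 = 0 := by
          linear_combination h3 - h4
        rcases mul_eq_zero.1 h5 with h6 | h6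
        · exact absurd (sub_eq_zero.1 h6).symm hx10
        · rw [h6, mul_zero, zero_add] at h3
          exact h3
      have h3 := coef_ne (h := h) L hL2 (x0 := y0) (by
        change κ⁻¹ * cm m (K y0) ≠ 0
        rw [← hκ, inv_mul_cancel₀ hy0]
        exact one_ne_zero) m
      apply h3
      have h4 : (L : F → F) = fun x => κ⁻¹ * cm m (K x) := rfl
      rw [h4, coef_mul_left, cm_coef K aK pK, mul_zero]

/-- the case of components `±1` only. -/
theorem form1 [QF F h] (G : F →+ F →+ F) (aG : ∀ x, G x x = 0)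
    (pG : ∀ x, ∑ s : F, s⁻¹ * G x s = 0)
    (hG : ∀ (x : F) (m : ZMod h), m ≠ 0 → m ≠ 1 → m ≠ -1 → cm m (G x) = 0) :
    ∃ γ : F, (∀ x, coef (1 : ZMod h) (G x) = γ * fr (-1 : ZMod h) x) ∧
      (∀ x, coef (-1 : ZMod h) (G x) = γ * fr (1 : ZMod h) x) ∧
      ∀ x s, G x s = γ * fr (-1 : ZMod h) x * fr (1 : ZMod h) s +
        γ * fr (1 : ZMod h) x * fr (-1 : ZMod h) s := by
  have hh : 4 ≤ h := QF.four (F := F)
  have h3 : ∀ (x : F) (b : ZMod h), b ≠ 1 → b ≠ -1 → coef b (G x) = 0 := by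
    intro x b hb hb'
    by_cases b0 : b = 0
    · rw [b0, coef_zero_eq G pG]
    have h4 := hG x (-b) (fun h5 => b0 (neg_eq_zero.1 h5)) (fun h5 => hb' (by rw [← h5, neg_neg]))
      (fun h5 => hb (neg_injective h5))
    unfold cm at h4
    rw [neg_neg] at h4
    exact (fr_eq_zero _).1 h4
  have hne : (1 : ZMod h) ≠ -1 := by
    have := two_ne' hh
    intro h5
    apply this
    linear_combination h5
  have hck : ∀ i j : ZMod h, j ≠ 1 → j ≠ -1 → ck G i j = 0 := by
    intro i j hj hj'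
    rw [ck_symm G aG]
    unfold ck
    have h4 : (fun x => coef j (G x)) = fun _ => (0 : F) := by
      funext x
      exact h3 x j hj hj'
    rw [h4]
    unfold coef
    simp
  have h4 : ∀ x, coef (1 : ZMod h) (G x) = ck (h := h) G 1 (-1) * fr (-1 : ZMod h) x := by
    intro x
    have h5 := lin_rep (h := h) (cf G (1 : ZMod h)) x
    change coef (1 : ZMod h) (G x) = ∑ j : ZMod h, ck (h := h) G 1 j * fr j x at h5
    rw [h5, Finset.sum_eq_single (-1 : ZMod h)]
    · intro j _ hj
      by_cases hj1 : j = 1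
      · rw [hj1, ck_self G aG, zero_mul]
      · rw [hck 1 j hj1 hj, zero_mul]
    · intro hb
      exact absurd (Finset.mem_univ _) hb
  have h5 : ∀ x, coef (-1 : ZMod h) (G x) = ck (h := h) G 1 (-1) * fr (1 : ZMod h) x := by
    intro x
    have h5 := lin_rep (h := h) (cf G (-1 : ZMod h)) x
    change coef (-1 : ZMod h) (G x) = ∑ j : ZMod h, ck (h := h) G (-1) j * fr j x at h5
    rw [h5, Finset.sum_eq_single (1 : ZMod h), ck_symm G aG]
    · intro j _ hj
      by_cases hj1 : j = -1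
      · rw [hj1, ck_self G aG, zero_mul]
      · rw [hck (-1) j hj hj1, zero_mul]
    · intro hb
      exact absurd (Finset.mem_univ _) hb
  refine ⟨ck (h := h) G 1 (-1), h4, h5, fun x s => ?_⟩
  rw [lin_rep (h := h) (G x) s, ← Finset.add_sum_erase _ _ (Finset.mem_univ (1 : ZMod h)),
    ← Finset.add_sum_erase _ _ (Finset.mem_erase.2 ⟨hne.symm, Finset.mem_univ (-1 : ZMod h)⟩),
    Finset.sum_eq_zero, add_zero, h4, h5]
  intro j hj
  simp only [Finset.mem_erase, Finset.mem_univ, and_true] at hj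
  rw [h3 x j hj.2 hj.1, zero_mul]

theorem GK_proof (F : Type) [Field F] [Fintype F] [CharP F 2] (h : ℕ) [NeZero h] [QF F h] :
    GKStmt F h := by
  classical
  intro G K aG aK pG pK H
  have hh : 4 ≤ h := QF.four (F := F)
  by_cases hK : ∃ (m : ZMod h) (y0 : F), m ≠ 0 ∧ m ≠ 1 ∧ m ≠ -1 ∧ cm m (K y0) ≠ 0
  · obtain ⟨m, y0, m0, m1, m2, hy0⟩ := hK
    exact Or.inl fun x y => claimA G K aG aK pG pK H m m0 m1 m2 y0 hy0 x y
  by_cases hG : ∃ (m : ZMod h) (y0 : F), m ≠ 0 ∧ m ≠ 1 ∧ m ≠ -1 ∧ cm m (G y0) ≠ 0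
  · obtain ⟨m, y0, m0, m1, m2, hy0⟩ := hG
    refine Or.inr fun x y => claimA K G aK aG pK pG ?_ m m0 m1 m2 y0 hy0 x y
    intro c hc x y
    rw [mul_comm (adj h (K x) c)]
    exact H c hc y x
  push Not at hK hG
  obtain ⟨γ, g1, g2, g3⟩ := form1 (h := h) G aG pG (fun x m m0 m1 m2 => hG m x m0 m1 m2)
  obtain ⟨κ, k1, k2, k3⟩ := form1 (h := h) K aK pK fun x m m0 m1 m2 => hK m x m0 m1 m2
  have e1 : (1 : ZMod h) ≠ 0 := one_ne' hh
  have e2 : (2 : ZMod h) ≠ 0 := two_ne' hh
  have e3 : (3 : ZMod h) ≠ 0 := three_ne' hh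
  have hne : (1 : ZMod h) ≠ -1 := by
    intro h5
    apply e2
    linear_combination h5
  have key : ∀ y : F, fr (1 : ZMod h) (γ * κ) * fr (2 : ZMod h) y = 0 := by
    intro y
    have h3 : ∀ x : F, fr (1 : ZMod h) (γ * κ) * fr (2 : ZMod h) y * fr (2 : ZMod h) x =
        fr (1 : ZMod h) (fr (1 : ZMod h) γ * fr (-1 : ZMod h) (κ * fr (-1 : ZMod h) y)) *
          fr (3 : ZMod h) x +
        fr (1 : ZMod h) (fr (-1 : ZMod h) γ * fr (1 : ZMod h) (κ * fr (1 : ZMod h) y)) *
          fr (-1 : ZMod h) x := by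
      intro x
      have h4 := (rel (h := h) G K pG pK H x y).2 1 e1 hne
      have c1 : cm (1 : ZMod h) (G x) = fr (1 : ZMod h) (γ * fr (1 : ZMod h) x) := by
        unfold cm
        rw [g2]
      have c2 : cm (-1 : ZMod h) (G x) = fr (-1 : ZMod h) (γ * fr (-1 : ZMod h) x) := by
        unfold cm
        rw [neg_neg, g1]
      have c3 : cm (1 : ZMod h) (K y) = fr (1 : ZMod h) (κ * fr (1 : ZMod h) y) := by
        unfold cm
        rw [k2]
      have c4 : cm (-1 : ZMod h) (K y) = fr (-1 : ZMod h) (κ * fr (-1 : ZMod h) y) := by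
        unfold cm
        rw [neg_neg, k1]
      rw [c1, c2, c3, c4, ← fr_one (h := h)] at h4
      simp only [map_mul, map_add, ← fr_add] at h4 ⊢
      have s1 : (1 : ZMod h) + 1 = 2 := by norm_num
      have s2 : (1 : ZMod h) + 2 = 3 := by norm_num
      have s3 : (1 : ZMod h) + (-1 + -1) = -1 := by ring
      simp only [s1, s2, s3] at h4 ⊢
      linear_combination h4
    have h4 : coef (2 : ZMod h) (fun x : F => fr (1 : ZMod h) (γ * κ) * fr (2 : ZMod h) y *
        fr (2 : ZMod h) x) = 0 := by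
      have h5 : (fun x : F => fr (1 : ZMod h) (γ * κ) * fr (2 : ZMod h) y * fr (2 : ZMod h) x) =
          fun x : F => fr (1 : ZMod h) (fr (1 : ZMod h) γ * fr (-1 : ZMod h) (κ * fr (-1 : ZMod h) y)) *
            fr (3 : ZMod h) x +
            fr (1 : ZMod h) (fr (-1 : ZMod h) γ * fr (1 : ZMod h) (κ * fr (1 : ZMod h) y)) *
            fr (-1 : ZMod h) x := funext h3
      rw [h5, coef_add, coef_mono, coef_mono, if_neg, if_neg, add_zero]
      · intro h6
        apply e3
        linear_combination h6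
      · intro h6
        apply e1
        linear_combination -h6
    rw [coef_mono, if_pos rfl] at h4
    exact h4
  have h3 := key 1
  rw [map_one, mul_one] at h3
  rcases mul_eq_zero.1 ((fr_eq_zero _).1 h3) with h4 | h4
  · left
    intro x y
    rw [g3, h4]
    ring
  · right
    intro x y
    rw [k3, h4]
    ring

end Pool.Agent.H51.SEP
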