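import Pool.Agent.H51.SEP.IX
import Pool.Agent.H51.SEP.GK

/-!
# FSUP
-/

set_option autoImplicit false
set_option linter.unusedSectionVars false

namespace Pool.Agent.H51.SEP

open Finset Pool.Agent.H51.QOV

variable {F : Type} [Field F] [Fintype F] [CharP F 2] {h : ℕ} [NeZero h]

theorem K_rep' [QF F h] (d : F →+ F →+ F) (hd : ∀ x, d x x = 0) (x s : F) :
    d x s = ∑ i : ZMod h, ∑ j : ZMod h, ck d i j * fr i x * fr j s := by
  rw [K_rep (h := h) d x s, Finset.sum_comm]
  refine Finset.sum_congr rfl fun i _ => Finset.sum_congr rfl fun j _ => ?_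
  rw [ck_symm d hd]

theorem fadj [QF F h] (r : ZMod h) (d : F →+ F →+ F) (hd : ∀ x, d x x = 0)
    (H : ∀ x y : F, y ≠ 0 → tr h ((fr r y)⁻¹ * d x (y⁻¹ * fr r y)) = 0) (y : F) :
    ∑ i : ZMod h, ∑ j : ZMod h, fr (-i) (ck d i j) *
      (fr (j - i + r) y * (fr (j - i) y * fr (r - i) y)⁻¹) = 0 := by
  by_cases hy : y = 0
  · subst hy; simp
  have h1 := h85_adj (h := h) (fr r y)⁻¹
    (fun i => ∑ j, ck d i j * fr j (y⁻¹ * fr r y)) (by
      intro x
      rw [← H x y hy, K_rep' (h := h) d hd]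
      congr 2
      refine Finset.sum_congr rfl fun i _ => ?_
      rw [Finset.sum_mul]
      exact Finset.sum_congr rfl fun j _ => by ring)
  rw [← h1]
  refine Finset.sum_congr rfl fun i _ => ?_
  rw [Finset.mul_sum, map_sum]
  refine Finset.sum_congr rfl fun j _ => ?_
  simp only [map_mul, map_inv₀]
  rw [← fr_add, ← fr_add, ← fr_add, ← fr_add]
  have e1 : -i + r = r - i := by ring
  have e2 : -i + j = j - i := by ring
  rw [e1, e2, mul_inv]
  ring

theorem fext [QF F h] (r : ZMod h) (d : F →+ F →+ F) (hd : ∀ x, d x x = 0)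
    (H : ∀ x y : F, y ≠ 0 → tr h ((fr r y)⁻¹ * d x (y⁻¹ * fr r y)) = 0) (i0 j0 : ZMod h) :
    ∑ i : ZMod h, ∑ j : ZMod h, fr (-i) (ck d i j) *
      (if P (j - i + r) + P (j0 - i0) + P (r - i0) =
        P (j - i) + P (r - i) + P (j0 - i0 + r) then 1 else 0) = 0 := by
  have h1 : ∑ y : F, (fr (j0 - i0) y * fr (r - i0) y * (fr (j0 - i0 + r) y)⁻¹) *
      (∑ i : ZMod h, ∑ j : ZMod h, fr (-i) (ck d i j) *
        (fr (j - i + r) y * (fr (j - i) y * fr (r - i) y)⁻¹)) = 0 :=
    Finset.sum_eq_zero fun y _ => by rw [fadj r d hd H, mul_zero]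
  simp only [Finset.mul_sum] at h1
  rw [Finset.sum_comm] at h1
  refine Eq.trans ?_ h1
  refine Finset.sum_congr rfl fun i _ => ?_
  rw [Finset.sum_comm]
  refine Finset.sum_congr rfl fun j _ => ?_
  rw [← h85_orth3 (F := F), Finset.mul_sum]
  refine Finset.sum_congr rfl fun y _ => ?_
  simp only [mul_inv]
  ring

theorem fzero [QF F h] (r : ZMod h) (r0 : r ≠ 0) (r1 : r ≠ -1) (r2 : 2 * r ≠ 0)
    (d : F →+ F →+ F) (hd : ∀ x, d x x = 0) (hp : ∀ x, ∑ s : F, s⁻¹ * d x s = 0)
    (H : ∀ x y : F, y ≠ 0 → tr h ((fr r y)⁻¹ * d x (y⁻¹ * fr r y)) = 0) (i0 j0 : ZMod h)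
    (h1 : j0 ≠ 1) (h2 : j0 ≠ r) : ck d i0 j0 = 0 := by
  have hh : 4 ≤ h := QF.four (F := F)
  have r2' : r + r ≠ 0 := fun h3 => r2 (by linear_combination h3)
  by_cases hj0 : j0 = 0
  · rw [hj0]; exact ck_zero_right d hd hp _
  by_cases hi0 : i0 = 0
  · rw [hi0]; exact ck_zero_left d hp _
  by_cases hij0 : i0 = j0
  · rw [hij0]; exact ck_self d hd _
  have H0 := fext r d hd H i0 j0
  have hz : ∀ i j : ZMod h, ¬ (i = i0 ∧ j = j0) → fr (-i) (ck d i j) *
      (if P (j - i + r) + P (j0 - i0) + P (r - i0) =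
        P (j - i) + P (r - i) + P (j0 - i0 + r) then 1 else 0) = 0 := by
    intro i j hij
    by_cases hj : j = 0
    · rw [hj, ck_zero_right d hd hp, map_zero, zero_mul]
    by_cases hi : i = 0
    · rw [hi, ck_zero_left d hp, map_zero, zero_mul]
    by_cases hij' : i = j
    · rw [hij', ck_self d hd, map_zero, zero_mul]
    rw [if_neg, mul_zero]
    intro H
    apply hij
    have := ix2g hh (r := r) (a := -i) (b := j - i) (a0 := -i0) (b0 := j0 - i0) r0 r1 r2'
      (by intro h3; apply hj; linear_combination -h3)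
      (by intro h3; apply hj0; linear_combination -h3)
      (by intro h3; apply h1; linear_combination h3)
      (by intro h3; apply h2; linear_combination h3)
      (by intro h3; exact hi (neg_eq_zero.1 h3))
      (by intro h3; exact hij' (sub_eq_zero.1 h3).symm)
      (by intro h3; exact hi0 (neg_eq_zero.1 h3))
      (by intro h3; exact hij0 (sub_eq_zero.1 h3).symm)
      (by rw [← sub_eq_add_neg, ← sub_eq_add_neg]; exact H)
    constructor
    · exact neg_injective this.1
    · have h3 := this.1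
      have h4 := this.2
      linear_combination h4 - h3
  rw [Finset.sum_eq_single i0, Finset.sum_eq_single j0] at H0
  · rw [if_pos (by ring), mul_one] at H0
    exact (fr_eq_zero _).1 H0
  · intro j _ hj
    exact hz _ _ (fun h3 => hj h3.2)
  · simp
  · intro i _ hi
    exact Finset.sum_eq_zero fun j _ => hz _ _ (fun h3 => hi h3.1)
  · simp

theorem FSUP_proof (F : Type) [Field F] [Fintype F] [CharP F 2] (h : ℕ) [NeZero h] [QF F h] :
    FSupStmt F h := by
  classical
  intro r r0 r1 r2 d hd hp H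
  have hz : ∀ i j : ZMod h, ¬ ((i = 1 ∧ j = r) ∨ (i = r ∧ j = 1)) → ck d i j = 0 := by
    intro i j hij
    by_cases h1 : j ≠ 1 ∧ j ≠ r
    · exact fzero r r0 r1 r2 d hd hp H i j h1.1 h1.2
    by_cases h2 : i ≠ 1 ∧ i ≠ r
    · rw [ck_symm d hd]; exact fzero r r0 r1 r2 d hd hp H j i h2.1 h2.2
    by_cases h3 : i = j
    · rw [h3]; exact ck_self d hd _
    exfalso
    grind
  by_cases hr : r = 1
  · refine ⟨0, fun x s => ?_⟩
    rw [K_rep' (h := h) d hd, zero_mul]
    refine Finset.sum_eq_zero fun i _ => Finset.sum_eq_zero fun j _ => ?_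
    by_cases hij : i = j
    · rw [hij, ck_self d hd, zero_mul, zero_mul]
    · rw [hz i j, zero_mul, zero_mul]
      rintro (⟨h1, h2⟩ | ⟨h1, h2⟩)
      · exact hij (by rw [h1, h2, hr])
      · exact hij (by rw [h1, h2, hr])
  refine ⟨ck d 1 r, fun x s => ?_⟩
  rw [K_rep' (h := h) d hd, ← Finset.add_sum_erase _ _ (Finset.mem_univ (1 : ZMod h)),
    ← Finset.add_sum_erase _ _ (Finset.mem_erase.2 ⟨hr, Finset.mem_univ r⟩),
    Finset.sum_eq_single r, Finset.sum_eq_single (1 : ZMod h), Finset.sum_eq_zero, add_zero,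
    ck_symm d hd r 1]
  · ring
  · intro i hi
    simp only [Finset.mem_erase, Finset.mem_univ, and_true] at hi
    refine Finset.sum_eq_zero fun j _ => ?_
    rw [hz i j, zero_mul, zero_mul]
    rintro (⟨h1, _⟩ | ⟨h1, _⟩)
    · exact hi.2 h1
    · exact hi.1 h1
  · intro j _ hj
    rw [hz r j, zero_mul, zero_mul]
    rintro (⟨h1, _⟩ | ⟨_, h1⟩)
    · exact hr h1
    · exact hj h1
  · intro h1
    exact absurd (Finset.mem_univ _) h1
  · intro j _ hj
    rw [hz 1 j, zero_mul, zero_mul]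
    rintro (⟨_, h1⟩ | ⟨h1, _⟩)
    · exact hj h1
    · exact hr h1.symm
  · intro h1
    exact absurd (Finset.mem_univ _) h1

end Pool.Agent.H51.SEP
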