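import Pool.Agent.H85.QOV.Tl

set_option autoImplicit false
set_option linter.unusedVariables false

namespace Pool.Agent.H51.QOV
variable {h : ℕ} [NeZero h]

theorem ix2g (hh : 4 ≤ h) {r a b a0 b0 : ZMod h} (r0 : r ≠ 0) (r1 : r ≠ -1) (r2 : r + r ≠ 0)
    (hab : a ≠ b) (hab0 : a0 ≠ b0) (h1 : b0 - a0 ≠ 1) (h2 : b0 - a0 ≠ r)
    (ha : a ≠ 0) (hb : b ≠ 0) (ha0 : a0 ≠ 0) (hb0 : b0 ≠ 0)
    (H : P (b + r) + P b0 + P (r + a0) = P b + P (r + a) + P (b0 + r)) :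
    a = a0 ∧ b = b0 := by
  have e1 := one_ne' hh
  have e2 := two_ne' hh
  have e3 := three_ne' hh
  have H1 := nf_eq hh H
  have H2 : ∀ x, x ∈ nf (b + r) b0 (r + a0) ↔ x ∈ nf b (r + a) (b0 + r) := fun x => by rw [H1]
  simp only [h85_nf_mem] at H2
  have Ha := H2 (b + r)
  have Hb := H2 b0
  have Hc := H2 (r + a0)
  have Hd := H2 b
  have He := H2 (r + a)
  have Hf := H2 (b0 + r)
  have Hg := H2 (b + r + 1)
  have Hi := H2 (b0 + 1)
  have Hj := H2 (b + 1)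
  have Hk := H2 (b0 + r + 1)
  clear H2 H1 H
  split_ifs at * <;> grind

end Pool.Agent.H51.QOV
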