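import Pool.Agent.H51.SEP.Stmt
import Pool.Agent.H51.QOV.NUC
import Pool.Agent.H51.QOV.ST0

/-!
# S1: the normal form
-/

set_option autoImplicit false
set_option linter.unusedSectionVars false

namespace Pool.Agent.H51.SEP

open Finset Pool.Agent.H51.QOV

variable {F : Type} [Field F] [Fintype F] [CharP F 2]

/-- the missing slope in direction `1`. -/
def ps (G : F → F) (s : F) : F := ∑ x : F, x⁻¹ * (G (s + x) + G s)

theorem ps_scale (G : F → F) (s w : F) : ∑ x : F, x⁻¹ * (G (s + x * w) + G s) = w * ps G s := by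
  have h1 := St0.scl (a := fun x : F => x) (fun _ _ => rfl) (fun _ h => h)
    (fun z => G (s + z) + G s) (by
      rw [add_zero]
      exact CharTwo.add_self_eq_zero _) w (fun h => h)
  exact h1

theorem sum_inv_mul (c : F) : ∑ x : F, x⁻¹ * (x * c) = c := by
  classical
  have h3 : ∀ x : F, x⁻¹ * (x * c) = (if x = 0 then 0 else 1) * c := by
    intro x
    by_cases hx : x = 0
    · rw [if_pos hx, hx]
      simp
    · rw [if_neg hx]
      field_simp
  rw [Finset.sum_congr rfl fun x _ => h3 x, ← Finset.sum_mul, Finset.sum_ite,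
    Finset.sum_const_zero, zero_add, Finset.sum_const]
  have h4 : (univ.filter fun x : F => ¬ x = 0).card = Fintype.card F - 1 := by
    rw [Finset.filter_not, Finset.filter_eq' univ (0 : F), if_pos (Finset.mem_univ _),
      Finset.sdiff_singleton_eq_erase, Finset.card_erase_of_mem (Finset.mem_univ _),
      Finset.card_univ]
  rw [h4, nsmul_eq_mul, mul_one]
  have h5 : ((Fintype.card F - 1 : ℕ) : F) = 1 := by
    have h6 : 1 ≤ Fintype.card F := Fintype.card_pos
    rw [Nat.cast_sub h6]
    have h7 : ((Fintype.card F : ℕ) : F) = 0 := FiniteField.cast_card_eq_zero F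
    have h2 : (2 : F) = 0 := CharTwo.two_eq_zero
    rw [h7, Nat.cast_one]
    linear_combination -h2
  rw [h5, one_mul]

theorem sum_inv_sq (h : ℕ) [NeZero h] [QF F h] (c : F) : ∑ x : F, x⁻¹ * (x * (x * c)) = 0 := by
  have h1 : ∀ x : F, x⁻¹ * (x * (x * c)) = x * c := by
    intro x
    by_cases hx : x = 0
    · rw [hx]; simp
    · field_simp
  rw [Finset.sum_congr rfl fun x _ => h1 x, ← Finset.sum_mul, St0.sum_all h, zero_mul]

theorem S1_proof (F : Type) [Field F] [Fintype F] [CharP F 2] (h : ℕ) [NeZero h] [QF F h] :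
    S1Stmt F := by
  classical
  intro G K e hs
  have h2 : (2 : F) = 0 := CharTwo.two_eq_zero
  have hN := NUC_proof F h
  obtain ⟨f, hf⟩ : ∃ f : F × F → F, f = fun u : F × F => G u.1 + K u.2 + e * (u.1 * u.2) := ⟨_, rfl⟩
  rw [← hf] at hs
  -- the missing slopes
  have hlam : ∀ u w : F × F, ∑ x : F, x⁻¹ * (f (u + x • w) + f u) =
      w.1 * ps G u.1 + w.2 * ps K u.2 + e * om u w := by
    intro u w
    rw [← ps_scale G, ← ps_scale K, ← sum_inv_mul (e * om u w), ← Finset.sum_add_distrib,
      ← Finset.sum_add_distrib]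
    have h3 : ∑ x : F, x⁻¹ * (x * (x * (e * (w.1 * w.2)))) = 0 := sum_inv_sq h _
    rw [← add_zero (∑ x : F, (x⁻¹ * (G (u.1 + x * w.1) + G u.1) + x⁻¹ * (K (u.2 + x * w.2) + K u.2) +
      x⁻¹ * (x * (e * om u w)))), ← h3, ← Finset.sum_add_distrib]
    refine Finset.sum_congr rfl fun x _ => ?_
    rw [hf]
    simp only [Prod.fst_add, Prod.snd_add, Prod.smul_fst, Prod.smul_snd, smul_eq_mul]
    unfold om
    linear_combination (x⁻¹ * e * u.1 * u.2) * h2
  have hpG : ∀ s s', ps G s = ps G s' := by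
    intro s s'
    refine hN G ?_ s s'
    intro u x y hx hy hxy
    refine hs (u, 0) (1, 0) (by simp) x y hx hy ?_
    rw [hf]
    simp only [Prod.fst_add, Prod.snd_add, Prod.smul_fst, Prod.smul_snd, smul_eq_mul, mul_one,
      mul_zero, add_zero]
    have : ∀ x : F, G (u + x) + K 0 + (G u + K 0) = G (u + x) + G u := by
      intro x
      linear_combination K 0 * h2
    rw [this, this]
    exact hxy
  have hpK : ∀ s s', ps K s = ps K s' := by
    intro s s'
    refine hN K ?_ s s'
    intro u x y hx hy hxy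
    refine hs (0, u) (0, 1) (by simp) x y hx hy ?_
    rw [hf]
    simp only [Prod.fst_add, Prod.snd_add, Prod.smul_fst, Prod.smul_snd, smul_eq_mul, mul_one,
      mul_zero, add_zero, zero_mul]
    have : ∀ x : F, G 0 + K (u + x) + (G 0 + K u) = K (u + x) + K u := by
      intro x
      linear_combination G 0 * h2
    rw [this, this]
    exact hxy
  obtain ⟨p, hp⟩ : ∃ p, p = ps G 0 := ⟨_, rfl⟩
  obtain ⟨q, hq⟩ : ∃ q, q = ps K 0 := ⟨_, rfl⟩
  have hG : ∀ s, ps G s = p := fun s => by rw [hp]; exact hpG s 0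
  have hK : ∀ s, ps K s = q := fun s => by rw [hq]; exact hpK s 0
  have hmiss : ∀ u w : F × F, w ≠ 0 → ∀ x : F, x ≠ 0 →
      x⁻¹ * (f (u + x • w) + f u) ≠ w.1 * p + w.2 * q + e * om u w := by
    intro u w hw x hx
    have h1 := St0.miss h (s := fun x => x⁻¹ * (f (u + x • w) + f u))
      (fun x y hx hy hxy => hs u w hw x y hx hy hxy) (by simp) x hx
    rwa [hlam, hG, hK] at h1
  have hm1 : ∀ u v : F × F, u ≠ v →
      f u + f v ≠ p * (u.1 + v.1) + q * (u.2 + v.2) + e * om u v := by
    intro u v huv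
    have hw : u + v ≠ 0 := fun h => huv (CharTwo.add_eq_zero.1 h)
    have h1 := hmiss u (u + v) hw 1 one_ne_zero
    have h3 : u + (1 : F) • (u + v) = v := by
      rw [one_smul, ← add_assoc, CharTwo.add_self_eq_zero, zero_add]
    rw [h3, inv_one, one_mul] at h1
    have h4 : om u (u + v) = om u v := by
      unfold om
      simp only [Prod.fst_add, Prod.snd_add]
      linear_combination (u.1 * u.2) * h2
    rw [h4, add_comm (f v)] at h1
    intro h5
    apply h1
    rw [h5]
    simp only [Prod.fst_add, Prod.snd_add]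
    ring
  have he0 : e ≠ 0 := by
    intro h0
    have hinj : Function.Injective (fun u : F × F => f u + p * u.1 + q * u.2) := by
      intro u v huv
      by_contra hne
      apply hm1 u v hne
      rw [h0, zero_mul, add_zero]
      have huv' : f u + p * u.1 + q * u.2 = f v + p * v.1 + q * v.2 := huv
      linear_combination huv' + (f v - p * u.1 - q * u.2) * h2
    have h1 := Fintype.card_le_of_injective _ hinj
    rw [Fintype.card_prod] at h1
    have h2 : 1 < Fintype.card F := Fintype.one_lt_card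
    nlinarith
  refine ⟨he0, p, q, ?_⟩
  have hee : e⁻¹ * e = 1 := inv_mul_cancel₀ he0
  constructor
  · rw [CharTwo.add_self_eq_zero]
    ring
  · rw [CharTwo.add_self_eq_zero]
    ring
  · intro s t s' t' hne h3
    apply hm1 (s, t) (s', t') hne
    rw [hf]
    unfold om
    simp only
    have h4 : e * (e⁻¹ * (G s + G 0 + p * s) + e⁻¹ * (G s' + G 0 + p * s') +
        (e⁻¹ * (K t + K 0 + q * t) + e⁻¹ * (K t' + K 0 + q * t')) + (s + s') * (t + t')) = 0 := by
      rw [h3, mul_zero]
    have h5 : G s + G s' + 2 * G 0 + p * (s + s') + (K t + K t' + 2 * K 0 + q * (t + t')) +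
        e * ((s + s') * (t + t')) = 0 := by
      linear_combination h4 + (-(G s + G s' + 2 * G 0 + p * (s + s') +
        (K t + K t' + 2 * K 0 + q * (t + t')))) * hee
    linear_combination h5 - (G 0 + K 0 + p * (s + s') + q * (t + t') + e * (s * t' + s' * t)) * h2
  · intro s
    have h3 := hG s
    unfold ps at h3
    have h4 : ∀ x : F, x⁻¹ * (e⁻¹ * (G (s + x) + G 0 + p * (s + x)) + e⁻¹ * (G s + G 0 + p * s)) =
        e⁻¹ * (x⁻¹ * (G (s + x) + G s)) + x⁻¹ * (x * (e⁻¹ * p)) := by
      intro x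
      linear_combination (x⁻¹ * e⁻¹ * (G 0 + p * s)) * h2
    rw [Finset.sum_congr rfl fun x _ => h4 x, Finset.sum_add_distrib, ← Finset.mul_sum, h3,
      sum_inv_mul, CharTwo.add_self_eq_zero]
  · intro s
    have h3 := hK s
    unfold ps at h3
    have h4 : ∀ x : F, x⁻¹ * (e⁻¹ * (K (s + x) + K 0 + q * (s + x)) + e⁻¹ * (K s + K 0 + q * s)) =
        e⁻¹ * (x⁻¹ * (K (s + x) + K s)) + x⁻¹ * (x * (e⁻¹ * q)) := by
      intro x
      linear_combination (x⁻¹ * e⁻¹ * (K 0 + q * s)) * h2
    rw [Finset.sum_congr rfl fun x _ => h4 x, Finset.sum_add_distrib, ← Finset.mul_sum, h3,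
      sum_inv_mul, CharTwo.add_self_eq_zero]

end Pool.Agent.H51.SEP
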