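import Pool.Agent.H51.SEP.NA
import Pool.Agent.H51.SEP.FSUP
import Pool.Agent.H51.SEP.S1

/-!
# KA0
-/

set_option autoImplicit false
set_option linter.unusedSectionVars false

namespace Pool.Agent.H51.SEP

open Finset Pool.Agent.H51.QOV Pool.Agent.H51.QOV.P2

variable {F : Type} [Field F] [Fintype F] [CharP F 2] {h : ℕ} [NeZero h]

/-- the Walsh coefficient of a constant character. -/
theorem Wk_ne (k : F → F) (c a : F) (hk : ∀ t, tr h (c * k t + c * a * t) = 0) : Wk h k c a ≠ 0 := by
  classical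
  unfold Wk
  rw [Finset.sum_congr rfl fun t _ => if_pos (hk t), Finset.sum_const, Finset.card_univ,
    nsmul_eq_mul, mul_one]
  have : 0 < Fintype.card F := Fintype.card_pos
  exact_mod_cast this.ne'

/-- surjectivity of the slopes. -/
theorem ka_surj {g : F → F} (k : F →+ F) (hgk : SNF g k) {a : F} (ha : a ≠ 0) :
    ∃ t, t ≠ 0 ∧ t⁻¹ * k t = a := by
  let φ : F →+ F := AddMonoidHom.mk' (fun t => k t + a * t) fun t t' => by
    rw [map_add, mul_add]
    ring
  have hns : ¬ Function.Surjective φ := by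
    intro hsur
    obtain ⟨t, ht⟩ := hsur (g a)
    have ht' : k t + a * t = g a := ht
    refine hgk.ov a t 0 0 (fun h1 => ha (congrArg Prod.fst h1)) ?_
    rw [hgk.g0, hgk.k0, add_zero, add_zero, add_zero, add_zero, ← ht']
    have h2 : (2 : F) = 0 := CharTwo.two_eq_zero
    linear_combination (k t + a * t) * h2
  have hni : ¬ Function.Injective φ := fun hi => hns (Finite.injective_iff_surjective.1 hi)
  rw [injective_iff_map_eq_zero] at hni
  push Not at hni
  obtain ⟨t, ht, ht0⟩ := hni
  refine ⟨t, ht0, ?_⟩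
  have h1 : k t = a * t := CharTwo.add_eq_zero.1 ht
  rw [h1]
  field_simp

/-- `2 r ≠ 0`. -/
theorem two_r [QF F h] {g : F → F} {r : ZMod h} (r0 : r ≠ 0) (hgk : SNF g (fun t => fr r t)) :
    2 * r ≠ 0 := by
  classical
  intro hr
  have hh : 4 ≤ h := QF.four (F := F)
  have h1 : ∀ a : F, a ≠ 0 → a * fr r a = 1 := by
    intro a ha
    obtain ⟨t, ht, hta⟩ := ka_surj ((fr r : F →+* F) : F →+ F) hgk ha
    have hta' : t⁻¹ * fr r t = a := hta
    rw [← hta', map_mul, map_inv₀, ← fr_add, ← two_mul, hr, fr_zero]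
    have h3 : fr r t ≠ 0 := fun h => ht ((fr_eq_zero r).1 h)
    field_simp
  have r1 : r ≠ 1 := by
    intro h3
    rw [h3, mul_one] at hr
    exact two_ne' hh hr
  have h2 := orthL (F := F) [1, 0, r] [(1 : ZMod h)] (by simp) (by simp)
  rw [if_neg] at h2
  · simp only [List.map_cons, List.map_nil, List.prod_cons, List.prod_nil, mul_one] at h2
    have h3 : ∀ x : F, fr (1 : ZMod h) x * (fr (0 : ZMod h) x * fr r x) * (fr (1 : ZMod h) x)⁻¹ =
        x⁻¹ * (x * 1) := by
      intro x
      by_cases hx : x = 0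
      · rw [hx]; simp
      · have h4 : fr (1 : ZMod h) x ≠ 0 := fun h => hx ((fr_eq_zero _).1 h)
        rw [fr_zero, h1 x hx]
        field_simp
    rw [Finset.sum_congr rfl fun x _ => h3 x, sum_inv_mul] at h2
    exact one_ne_zero h2
  · intro h3
    simp only [List.map_cons, List.map_nil, List.sum_cons, List.sum_nil, add_zero] at h3
    have h01 : (0 : ZMod h) ≠ r := fun h => r0 h.symm
    have h4 := P_sum_inj (S := {1, 0, r}) (T := {1}) (ne_univ_of_card (F := F) Finset.card_le_three)
      (ne_univ_of_card (F := F) (by simp)) (by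
        rw [Finset.sum_insert (by simp [one_ne' hh, r1.symm]), Finset.sum_pair h01,
          Finset.sum_singleton]
        exact h3)
    have h5 : (0 : ZMod h) ∈ ({1} : Finset (ZMod h)) := by
      rw [← h4]
      simp
    exact one_ne' hh (Finset.mem_singleton.1 h5).symm

theorem four_mul_le {n : ℕ} (hn : 4 ≤ n) : 4 * n ≤ 2 ^ n := by
  induction n, hn using Nat.le_induction with
  | base => norm_num
  | succ n hn ih =>
    rw [pow_succ]
    omega

/-- the pigeonhole argument. -/
theorem pigeon [QF F h] (g : F → F) (hg : ∀ c : F, c ≠ 0 → ∀ s, tr h (c * (g (s + c) + g s)) = 1)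
    (g0 : g 0 = 0) : False := by
  classical
  have h2 : (2 : F) = 0 := CharTwo.two_eq_zero
  have hb : ∀ b : F, b ≠ 0 → tr h (b * g b) = 1 := by
    intro b hb
    have h3 := hg b hb 0
    rw [zero_add, g0, add_zero] at h3
    exact h3
  have hsb : ∀ s b : F, s ≠ 0 → b ≠ 0 → s ≠ b → tr h (s * g b + b * g s) = 1 := by
    intro s b hs hb0 hsb
    have hc : s + b ≠ 0 := fun h => hsb (CharTwo.add_eq_zero.1 h)
    have h3 := hg (s + b) hc b
    have h4 : b + (s + b) = s := by linear_combination b * h2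
    rw [h4] at h3
    have h5 : (s + b) * (g s + g b) = (s * g b + b * g s) + s * g s + b * g b := by ring
    rw [h5, tr_add, tr_add, hb s hs, hb b hb0, add_assoc, CharTwo.add_self_eq_zero, add_zero] at h3
    exact h3
  -- the pigeonhole
  obtain ⟨S, hS⟩ : ∃ S : Finset F, S = univ \ {0, 1} := ⟨_, rfl⟩
  have hcard : (univ : Finset (F × F)).card < S.powerset.card := by
    rw [Finset.card_powerset, Finset.card_univ, Fintype.card_prod, hS,
      Finset.card_sdiff_of_subset (Finset.subset_univ _), Finset.card_univ,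
      Finset.card_pair zero_ne_one, QF.card (F := F) (h := h), ← pow_add]
    have h4 := QF.four (F := F) (h := h)
    have h5 := four_mul_le h4
    exact Nat.pow_lt_pow_right (by norm_num) (by omega)
  obtain ⟨T1, hT1, T2, hT2, hne, hv⟩ := Finset.exists_ne_map_eq_of_card_lt_of_maps_to hcard
    (f := fun T : Finset F => ((∑ s ∈ T, s, ∑ s ∈ T, g s) : F × F))
    (fun T _ => Finset.mem_univ _)
  have hv1 : ∑ s ∈ T1, s = ∑ s ∈ T2, s := congrArg Prod.fst hv
  have hv2 : ∑ s ∈ T1, g s = ∑ s ∈ T2, g s := congrArg Prod.snd hv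
  have key : ∀ (T : Finset F), T ⊆ S → ∀ b : F, b ≠ 0 →
      tr h ((∑ s ∈ T, s) * g b + b * ∑ s ∈ T, g s) = ((T.erase b).card : F) := by
    intro T hT b hb0
    have h3 : ((∑ s ∈ T, s) * g b + b * ∑ s ∈ T, g s) = ∑ s ∈ T, (s * g b + b * g s) := by
      rw [Finset.sum_add_distrib, Finset.sum_mul, Finset.mul_sum]
    have h4 : ∑ s ∈ T, tr h (s * g b + b * g s) = ∑ s ∈ T.erase b, tr h (s * g b + b * g s) := by
      by_cases hbT : b ∈ T
      · rw [← Finset.add_sum_erase T _ hbT, CharTwo.add_self_eq_zero, tr_zero, zero_add]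
      · rw [Finset.erase_eq_of_notMem hbT]
    rw [h3, tr_sum, h4]
    rw [Finset.sum_congr rfl fun s hs => hsb s b (by
      have h5 := hT (Finset.mem_of_mem_erase hs)
      rw [hS] at h5
      intro h6
      rw [h6] at h5
      simp at h5) hb0 (Finset.ne_of_mem_erase hs), Finset.sum_const, nsmul_eq_mul, mul_one]
  rw [Finset.mem_powerset] at hT1 hT2
  have h1 : ∀ b : F, b ≠ 0 → ((T1.erase b).card : F) = ((T2.erase b).card : F) := by
    intro b hb0
    rw [← key T1 hT1 b hb0, ← key T2 hT2 b hb0, hv1, hv2]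
  have h3 : (T1.card : F) = (T2.card : F) := by
    have h4 := h1 1 one_ne_zero
    have n1 : (1 : F) ∉ T1 := fun h5 => by
      have := hT1 h5
      rw [hS] at this
      simp at this
    have n2 : (1 : F) ∉ T2 := fun h5 => by
      have := hT2 h5
      rw [hS] at this
      simp at this
    rwa [Finset.erase_eq_of_notMem n1, Finset.erase_eq_of_notMem n2] at h4
  have h4 : ∀ (A B : Finset F), (A.card : F) = (B.card : F) → (∀ b, b ≠ 0 →
      ((A.erase b).card : F) = ((B.erase b).card : F)) → (0 : F) ∉ A → A ⊆ B := by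
    intro A B hAB hABb hA0 b hbA
    by_contra hbB
    have hb0 : b ≠ 0 := fun h => hA0 (by rw [← h]; exact hbA)
    have h5 := hABb b hb0
    rw [Finset.erase_eq_of_notMem hbB, ← hAB, Finset.card_erase_of_mem hbA,
      Nat.cast_sub (Finset.card_pos.2 ⟨b, hbA⟩), Nat.cast_one] at h5
    exact one_ne_zero (α := F) (by linear_combination -h5)
  apply hne
  have z1 : (0 : F) ∉ T1 := fun h5 => by
    have := hT1 h5
    rw [hS] at this
    simp at this
  have z2 : (0 : F) ∉ T2 := fun h5 => by
    have := hT2 h5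
    rw [hS] at this
    simp at this
  exact Finset.Subset.antisymm (h4 T1 T2 h3 h1 z1) (h4 T2 T1 h3.symm (fun b hb => (h1 b hb).symm) z2)

theorem KA0_proof (F : Type) [Field F] [Fintype F] [CharP F 2] (h : ℕ) [NeZero h] [QF F h]
    (hSP : SP1Stmt F h) (hFS : FSupStmt F h) : KA0Stmt F h := by
  classical
  intro g r r0 hgk
  have r2 := two_r r0 hgk
  have r1 : r ≠ -1 := by
    rintro rfl
    refine pigeon (h := h) g ?_ hgk.g0
    intro c hc s
    refine hSP g _ hgk c hc c (Wk_ne _ _ _ fun t => ?_) s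
    have h1 : tr h (c * fr (-1 : ZMod h) t) = tr h (c * c * t) := by
      rw [h85_tr_mul_fr, neg_neg, fr_one, sq]
    change tr h (c * fr (-1 : ZMod h) t + c * c * t) = 0
    rw [tr_add, h1, CharTwo.add_self_eq_zero]
  have hF : ∀ y : F, y ≠ 0 → ∀ s, tr h ((fr r y)⁻¹ * (g (s + y⁻¹ * fr r y) + g s)) = 1 := by
    intro y hy s
    have h7 : fr r y ≠ 0 := fun h => hy ((fr_eq_zero r).1 h)
    refine hSP g _ hgk _ (inv_ne_zero h7) _ (Wk_ne _ _ _ fun t => ?_) s
    have h8 : (fr r y)⁻¹ * fr r t + (fr r y)⁻¹ * (y⁻¹ * fr r y) * t = fr r (y⁻¹ * t) + y⁻¹ * t := by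
      rw [map_mul, map_inv₀]
      field_simp
    change tr h ((fr r y)⁻¹ * fr r t + (fr r y)⁻¹ * (y⁻¹ * fr r y) * t) = 0
    rw [h8, tr_add, tr_fr, CharTwo.add_self_eq_zero]
  intro l hl s
  by_contra hne
  obtain ⟨l0, h4, l1, hl1, s1, hs1⟩ := DEG_proof F g 3 ⟨l, hl, s, hne⟩
  obtain ⟨x1, x2, x3, rfl⟩ := List.length_eq_three.1 hl1
  apply hs1
  -- the function `Dx x1 (dl l0 g)`
  have h3 : ∀ l : List F, l.length = 3 → ∀ s, dl l (dl (x1 :: l0) g) s = 0 := by
    intro l hl s
    have h5 : dl l (dl (x1 :: l0) g) = dl (l ++ [x1]) (dl l0 g) := by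
      rw [dl_append]
      rfl
    rw [h5]
    exact h4 _ (by simp [hl]) s
  have hp : ∀ x, ∑ s : F, s⁻¹ * sdm (dl (x1 :: l0) g) h3 x s = 0 := by
    intro x
    have h1 : ∀ s : F, sdm (dl (x1 :: l0) g) h3 x s = dl (x :: x1 :: l0) (Dx s g) 0 := fun s => by
      rw [sdm_apply, sd_dl]
    simp only [h1]
    exact p_dl hgk.pg _ _
  obtain ⟨α, hα⟩ := hFS r r0 r1 r2 (sdm (dl (x1 :: l0) g) h3) (fun x => sd_self _ x) hp (by
    intro x y hy
    rw [sdm_apply, sd_dl]
    exact tr_dl (ψ := Dx (y⁻¹ * fr r y) g) (hF y hy) _ (by simp) _)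
  have hz : ∀ x s, sdm (dl (x1 :: l0) g) h3 x s = 0 := by
    by_cases hr : r = 1
    · intro x s
      rw [hα, hr]
      have h2 : (2 : F) = 0 := CharTwo.two_eq_zero
      linear_combination (α * (fr (1 : ZMod h) x * fr (1 : ZMod h) s)) * h2
    · by_cases hx : x1 = 0
      · intro x s
        have h5 : dl (x1 :: l0) g = 0 := by
          rw [dl_cons, hx]
          funext s
          unfold Dx
          rw [add_zero]
          exact CharTwo.add_self_eq_zero _
        rw [sdm_apply, h5]
        unfold sd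
        simp
      · have h5 : ∀ s, sdm (dl (x1 :: l0) g) h3 x1 s = 0 := by
          intro s
          rw [sdm_apply, sd_eq, dl_cons, dl_cons, dl_nil, dl_cons, Dx_comm s x1, Dx_self]
          rfl
        have h6 : α = 0 := by
          by_contra hα0
          have h7 : ∀ s, fr (1 : ZMod h) x1 * fr r s = fr r x1 * fr (1 : ZMod h) s := by
            intro s
            have h8 := h5 s
            rw [hα] at h8
            rcases mul_eq_zero.1 h8 with h9 | h9
            · exact absurd h9 hα0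
            · exact CharTwo.add_eq_zero.1 h9
          have h8 : coef r (fun s : F => fr (1 : ZMod h) x1 * fr r s) =
              coef r (fun s : F => fr r x1 * fr (1 : ZMod h) s) := by
            congr 1
            funext s
            exact h7 s
          rw [coef_mono, coef_mono, if_pos rfl, if_neg hr] at h8
          exact hx ((fr_eq_zero _).1 h8)
        intro x s
        rw [hα, h6, zero_mul]
  have h5 : dl [x1, x2, x3] (dl l0 g) s1 = dl [x2, x3] (dl (x1 :: l0) g) s1 := by
    have h6 : dl [x2, x3] (dl (x1 :: l0) g) = dl ([x2, x3] ++ [x1]) (dl l0 g) := by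
      rw [dl_append]
      rfl
    rw [h6]
    exact congrFun (dl_perm (List.perm_append_comm (l₁ := [x1]) (l₂ := [x2, x3])) _) s1
  rw [h5, sd_const h3]
  exact hz x2 x3

end Pool.Agent.H51.SEP
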