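import Pool.Agent.H51.SEP.Stmt
import Pool.Agent.H51.QOV.P2

/-!
# SP1: the Fourier step
-/

set_option autoImplicit false
set_option linter.unusedSectionVars false

namespace Pool.Agent.H51.SEP

open Finset Pool.Agent.H51.QOV Pool.Agent.H51.QOV.P2

variable {F : Type} [Field F] [Fintype F] [CharP F 2] {h : ℕ} [NeZero h]

variable {f : F × F → F}

/-- the line sums. -/
theorem line' [QF F h] (hov : ∀ u v : F × F, u ≠ v → f u + f v ≠ om u v) {c : F} (hc : c ≠ 0)
    (v : F × F) {w : F × F} (hw : w ≠ 0) :
    ∑ x : F, chi h (c * (f (v + x • w) + x * om v w)) = 0 := by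
  have hinj : Function.Injective fun x : F => f (v + x • w) + x * om v w := by
    intro x y hxy
    by_contra hne
    have h1 : v + x • w ≠ v + y • w := by
      intro h2
      have h3 : x • w = y • w := add_left_cancel h2
      have h4 : (x - y) • w = 0 := by rw [sub_smul, h3, sub_self]
      rcases smul_eq_zero.1 h4 with h5 | h5
      · exact hne (sub_eq_zero.1 h5)
      · exact hw h5
    refine hov _ _ h1 ?_
    have e1 : om (v + x • w) (v + y • w) = x * om v w + y * om v w := by
      rw [om_add_left, om_add_right, om_add_right, om_self, om_smul_left, om_smul_left,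
        om_smul_right, om_smul_right, om_self, om_comm w v]
      ring
    rw [e1]
    have hxy' : f (v + x • w) + x * om v w = f (v + y • w) + y * om v w := hxy
    have e2 : f (v + x • w) + f (v + y • w) =
        (f (v + x • w) + x * om v w) + (f (v + y • w) + y * om v w) +
          (x * om v w + y * om v w) := by
      have a1 := add_self (x * om v w)
      have a2 := add_self (y * om v w)
      linear_combination (-1 : F) * a1 - a2
    rw [e2, hxy', add_self, zero_add]
  have hbij := Finite.injective_iff_bijective.1 hinj
  rw [← sum_chi (h := h) hc]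
  exact Fintype.sum_equiv (Equiv.ofBijective _ hbij) _ _ fun x => rfl

theorem wv' [QF F h] (hov : ∀ u v : F × F, u ≠ v → f u + f v ≠ om u v) {c : F} (hc : c ≠ 0)
    (v : F × F) :
    ∑ u : F × F, chi h (c * f u + c * om u v) = -(Fintype.card F : ℤ) * chi h (c * f v) := by
  classical
  obtain ⟨q, hq⟩ : ∃ q : ℤ, q = (Fintype.card F : ℤ) := ⟨_, rfl⟩
  have hq1 : 1 < q := by
    rw [hq]
    exact_mod_cast Fintype.one_lt_card (α := F)
  have h1 : ∑ w ∈ univ \ {(0 : F × F)}, ∑ x : F, chi h (c * (f (v + x • w) + x * om v w)) = 0 := by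
    refine Finset.sum_eq_zero fun w hw => line' hov hc v ?_
    simpa using hw
  rw [Finset.sum_comm] at h1
  -- the term of `x`
  have h2 : ∀ x : F, x ≠ 0 → ∑ w ∈ univ \ {(0 : F × F)}, chi h (c * (f (v + x • w) + x * om v w)) =
      ∑ u ∈ univ \ {v}, chi h (c * f u + c * om u v) := by
    intro x hx
    refine Finset.sum_bij' (fun w _ => v + x • w) (fun u _ => x⁻¹ • (v + u)) ?_ ?_ ?_ ?_ ?_
    · intro w hw
      have hw' : w ≠ 0 := by simpa using hw
      simp only [Finset.mem_sdiff, Finset.mem_univ, true_and, Finset.mem_singleton]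
      intro h3
      have h4 : x • w = 0 := by
        have : v + x • w = v + 0 := by rw [h3, add_zero]
        exact add_left_cancel this
      rcases smul_eq_zero.1 h4 with h5 | h5
      · exact hx h5
      · exact hw' h5
    · intro u hu
      have hu' : u ≠ v := by simpa using hu
      simp only [Finset.mem_sdiff, Finset.mem_univ, true_and, Finset.mem_singleton]
      intro h3
      rcases smul_eq_zero.1 h3 with h5 | h5
      · exact inv_ne_zero hx h5
      · refine hu' ?_
        have : u = (v + u) + v := by
          rw [add_comm v u, add_assoc, addV, add_zero]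
        rw [this, h5, zero_add]
    · intro w _
      rw [← add_assoc, addV, zero_add, smul_smul, inv_mul_cancel₀ hx, one_smul]
    · intro u _
      rw [smul_smul, mul_inv_cancel₀ hx, one_smul, ← add_assoc, addV, zero_add]
    · intro w _
      have e1 : c * (f (v + x • w) + x * om v w) = c * f (v + x • w) + c * om (v + x • w) v := by
        rw [om_add_left, om_self, om_smul_left, om_comm w v]
        ring
      rw [e1]
  have h3 : ∑ w ∈ univ \ {(0 : F × F)}, chi h (c * (f (v + (0 : F) • w) + 0 * om v w)) =
      (q ^ 2 - 1) * chi h (c * f v) := by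
    have e1 : ∀ w : F × F, chi h (c * (f (v + (0 : F) • w) + 0 * om v w)) = chi h (c * f v) := by
      intro w
      rw [zero_smul, zero_mul, add_zero, add_zero]
    rw [Finset.sum_congr rfl fun w _ => e1 w, Finset.sum_const, nsmul_eq_mul]
    congr 1
    rw [Finset.card_sdiff_of_subset (Finset.subset_univ _), Finset.card_univ, Fintype.card_prod,
      Finset.card_singleton, Nat.cast_sub (by
        have : 0 < Fintype.card F := Fintype.card_pos
        exact Nat.succ_le_of_lt (Nat.mul_pos this this)), hq]
    push_cast
    ring
  rw [← Finset.sum_sdiff (Finset.subset_univ {(0 : F)}), Finset.sum_singleton, h3] at h1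
  have h4 : ∑ x ∈ univ \ {(0 : F)}, ∑ w ∈ univ \ {(0 : F × F)},
      chi h (c * (f (v + x • w) + x * om v w)) =
      (q - 1) * ∑ u ∈ univ \ {v}, chi h (c * f u + c * om u v) := by
    rw [Finset.sum_congr rfl fun x hx => h2 x (by simpa using hx), Finset.sum_const, nsmul_eq_mul]
    congr 1
    rw [Finset.card_sdiff_of_subset (Finset.subset_univ _), Finset.card_univ,
      Finset.card_singleton, Nat.cast_sub (Nat.succ_le_of_lt Fintype.card_pos), hq]
    push_cast
    ring
  rw [h4] at h1
  have h5 : ∑ u : F × F, chi h (c * f u + c * om u v) =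
      (∑ u ∈ univ \ {v}, chi h (c * f u + c * om u v)) + chi h (c * f v) := by
    rw [← Finset.sum_sdiff (Finset.subset_univ {v}), Finset.sum_singleton, om_self, mul_zero,
      add_zero]
  rw [h5, ← hq]
  have h6 : (q - 1) * ((∑ u ∈ univ \ {v}, chi h (c * f u + c * om u v)) +
      (q + 1) * chi h (c * f v)) = 0 := by
    rw [← h1]
    ring
  rcases mul_eq_zero.1 h6 with h7 | h7
  · omega
  · linarith

theorem Wk_eq (k : F → F) (c a : F) : Wk h k c a = ∑ t : F, chi h (c * k t + c * a * t) := rfl

theorem SP1_proof (F : Type) [Field F] [Fintype F] [CharP F 2] (h : ℕ) [NeZero h] [QF F h] :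
    SP1Stmt F h := by
  classical
  intro g k hgk c hc a hW s
  obtain ⟨q, hq⟩ : ∃ q : ℤ, q = (Fintype.card F : ℤ) := ⟨_, rfl⟩
  have hq0 : q ≠ 0 := by
    rw [hq]
    have : 0 < Fintype.card F := Fintype.card_pos
    exact_mod_cast this.ne'
  have h2 : (2 : F) = 0 := CharTwo.two_eq_zero
  have hov : ∀ u v : F × F, u ≠ v → (fun u : F × F => g u.1 + k u.2 + u.1 * u.2) u +
      (fun u : F × F => g u.1 + k u.2 + u.1 * u.2) v ≠ om u v := by
    intro u v huv h3
    refine hgk.ov u.1 u.2 v.1 v.2 huv ?_
    unfold om at h3
    simp only at h3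
    linear_combination h3 + (u.1 * v.2 + u.2 * v.1) * h2
  have hA : ∀ s' t' : F, ∑ s : F, chi h (c * g s + c * s * t') * Wk h k c (s + s') =
      -q * (chi h (c * g s') * chi h (c * k t' + c * s' * t')) := by
    intro s' t'
    have h3 := wv' (h := h) hov hc (s', t')
    rw [Fintype.sum_prod_type] at h3
    rw [← chi_add, hq]
    have h4 : c * g s' + (c * k t' + c * s' * t') = c * (g s' + k t' + s' * t') := by ring
    rw [h4, ← h3]
    refine Finset.sum_congr rfl fun s _ => ?_
    rw [Wk_eq, Finset.mul_sum]
    refine Finset.sum_congr rfl fun t _ => ?_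
    rw [← chi_add]
    congr 1
    unfold om
    simp only
    ring
  -- the transform in `t'`
  have hB : ∀ b s' : F, chi h (c * g b) * Wk h k c (b + s') = -(chi h (c * g s') * Wk h k c (b + s')) := by
    intro b s'
    have h3 : ∑ t' : F, chi h (c * b * t') * ∑ s : F, chi h (c * g s + c * s * t') * Wk h k c (s + s')
        = q * (chi h (c * g b) * Wk h k c (b + s')) := by
      simp only [Finset.mul_sum]
      rw [Finset.sum_comm]
      have h4 : ∀ s : F, ∑ t' : F, chi h (c * b * t') * (chi h (c * g s + c * s * t') *
          Wk h k c (s + s')) = if s = b then q * (chi h (c * g b) * Wk h k c (b + s')) else 0 := by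
        intro s
        have h5 : ∀ t' : F, chi h (c * b * t') * (chi h (c * g s + c * s * t') *
            Wk h k c (s + s')) = (chi h (c * g s) * Wk h k c (s + s')) *
              chi h (c * (s + b) * t') := by
          intro t'
          have h6 : c * (s + b) * t' = c * s * t' + c * b * t' := by ring
          rw [h6, chi_add, chi_add]
          ring
        rw [Finset.sum_congr rfl fun t' _ => h5 t', ← Finset.mul_sum]
        split_ifs with h6
        · subst h6
          have h7 : ∀ t' : F, chi h (c * (s + s) * t') = 1 := by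
            intro t'
            rw [CharTwo.add_self_eq_zero, mul_zero, zero_mul, chi_zero]
          rw [Finset.sum_congr rfl fun t' _ => h7 t', Finset.sum_const, Finset.card_univ,
            nsmul_eq_mul, mul_one, hq]
          ring
        · have h7 : c * (s + b) ≠ 0 := mul_ne_zero hc fun h8 => h6 (CharTwo.add_eq_zero.1 h8)
          rw [sum_chi h7, mul_zero]
      rw [Finset.sum_congr rfl fun s _ => h4 s, Finset.sum_ite_eq' univ b, if_pos (Finset.mem_univ _)]
    have h4 : ∑ t' : F, chi h (c * b * t') * ∑ s : F, chi h (c * g s + c * s * t') * Wk h k c (s + s')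
        = -(q * (chi h (c * g s') * Wk h k c (b + s'))) := by
      rw [Wk_eq, Finset.mul_sum, Finset.mul_sum, ← Finset.sum_neg_distrib]
      refine Finset.sum_congr rfl fun t' _ => ?_
      rw [hA]
      have h5 : c * k t' + c * (b + s') * t' = c * b * t' + (c * k t' + c * s' * t') := by ring
      rw [h5, chi_add (c * b * t')]
      ring
    have h5 : q * (chi h (c * g b) * Wk h k c (b + s') + chi h (c * g s') * Wk h k c (b + s')) = 0 := by
      linear_combination h4 - h3
    rcases mul_eq_zero.1 h5 with h6 | h6
    · exact absurd h6 hq0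
    · linarith
  have h3 := hB (s + a) s
  have h4 : s + a + s = a := by
    have : s + a + s = a + (s + s) := by ring
    rw [this, CharTwo.add_self_eq_zero, add_zero]
  rw [h4] at h3
  have h5 : chi h (c * g (s + a)) = -chi h (c * g s) := by
    have h6 : (chi h (c * g (s + a)) + chi h (c * g s)) * Wk h k c a = 0 := by
      linear_combination h3
    rcases mul_eq_zero.1 h6 with h7 | h7
    · linarith
    · exact absurd h7 hW
  have h6 : chi h (c * (g (s + a) + g s)) = -1 := by
    rw [mul_add, chi_add, h5]
    have := chi_sq (h := h) (c * g s)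
    linarith
  rcases tr_zero_or_one (h := h) (c * (g (s + a) + g s)) with h7 | h7
  · exfalso
    unfold chi at h6
    rw [if_pos h7] at h6
    norm_num at h6
  · exact h7

end Pool.Agent.H51.SEP
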