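import Pool.Agent.H51.SEP.KA0
import Pool.Agent.H51.SEP.SP1
import Pool.Agent.H51.QOV.All

/-!
# KA and the assembly
-/

set_option autoImplicit false
set_option linter.unusedSectionVars false

namespace Pool.Agent.H51.SEP

open Finset Pool.Agent.H51.QOV

variable {F : Type} [Field F] [Fintype F] [CharP F 2] {h : ℕ} [NeZero h]

theorem dl_scale (κ : F) (g : F → F) (l : List F) (s : F) :
    dl l (fun s => κ⁻¹ * g (κ * s)) s = κ⁻¹ * dl (l.map fun x => κ * x) g (κ * s) := by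
  induction l generalizing s with
  | nil => rfl
  | cons x l ih =>
    rw [List.map_cons, dl_cons, dl_cons]
    unfold Dx
    rw [ih, ih, mul_add κ s x]
    ring

theorem KA_proof (F : Type) [Field F] [Fintype F] [CharP F 2] (h : ℕ) [NeZero h] [QF F h]
    (hP : PayStmt F h) (hK0 : KA0Stmt F h) : KAStmt F := by
  classical
  intro g k0 hgk hk2
  have h2 : (2 : F) = 0 := CharTwo.two_eq_zero
  have hadd : ∀ s t, k0 (s + t) = k0 s + k0 t := by
    intro s t
    have h3 := hk2 [s, t] rfl 0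
    rw [← sd_eq] at h3
    unfold sd at h3
    rw [hgk.k0] at h3
    linear_combination h3 - (k0 s + k0 t) * h2
  obtain ⟨k, hk⟩ : ∃ k : F →+ F, ∀ t, k t = k0 t := ⟨AddMonoidHom.mk' k0 hadd, fun t => rfl⟩
  have hkf : (k : F → F) = k0 := funext hk
  have hgk' : SNF g k := by
    rw [hkf]
    exact hgk
  have hne : ∀ t, t ≠ 0 → k t ≠ 0 := by
    intro t ht h3
    refine hgk'.ov 0 t 0 0 (fun h4 => ht (congrArg Prod.snd h4)) ?_
    rw [hgk'.g0, h3, map_zero]
    ring
  have hinj : ∀ t s, t ≠ 0 → s ≠ 0 → t⁻¹ * k t = s⁻¹ * k s → t = s := by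
    intro t s ht hs hts
    let ψ : {t : F // t ≠ 0} → {t : F // t ≠ 0} := fun t => ⟨(t : F)⁻¹ * k (t : F),
      mul_ne_zero (inv_ne_zero t.2) (hne t t.2)⟩
    have hsur : Function.Surjective ψ := by
      rintro ⟨s, hs⟩
      obtain ⟨t, ht0, ht⟩ := ka_surj k hgk' hs
      exact ⟨⟨t, ht0⟩, Subtype.ext ht⟩
    have hinj := Finite.injective_iff_surjective.2 hsur
    have := @hinj ⟨t, ht⟩ ⟨s, hs⟩ (Subtype.ext hts)
    exact congrArg Subtype.val this
  obtain ⟨κ, r, hκ, r0, hkr⟩ := hP k hne hinj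
  have hκκ : κ⁻¹ * κ = 1 := inv_mul_cancel₀ hκ
  have hS : SNF (fun s => κ⁻¹ * g (κ * s)) (fun t => fr r t) := by
    constructor
    · rw [mul_zero, hgk'.g0, mul_zero]
    · exact map_zero _
    · intro s t s' t' hne h3
      refine hgk'.ov (κ * s) t (κ * s') t' ?_ ?_
      · intro h4
        apply hne
        rw [Prod.mk.injEq] at h4 ⊢
        exact ⟨mul_left_cancel₀ hκ h4.1, h4.2⟩
      · rw [hkr, hkr]
        have h4 : κ * (κ⁻¹ * g (κ * s) + κ⁻¹ * g (κ * s') + (fr r t + fr r t') +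
            (s + s') * (t + t')) = 0 := by rw [h3, mul_zero]
        linear_combination h4 - (g (κ * s) + g (κ * s')) * hκκ
    · intro s
      have h3 : ∀ x : F, x⁻¹ * (κ⁻¹ * g (κ * (s + x)) + κ⁻¹ * g (κ * s)) =
          κ⁻¹ * (x⁻¹ * (g (κ * s + x * κ) + g (κ * s))) := by
        intro x
        rw [mul_add κ s x, mul_comm κ x]
        ring
      rw [Finset.sum_congr rfl fun x _ => h3 x, ← Finset.mul_sum, ps_scale]
      have h4 : ps g (κ * s) = 0 := hgk'.pg (κ * s)
      rw [h4, mul_zero, mul_zero]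
    · intro s
      have h3 := hgk'.pk s
      have h4 : ∀ x : F, x⁻¹ * (k (s + x) + k s) = κ * (x⁻¹ * (fr r (s + x) + fr r s)) := by
        intro x
        rw [hkr, hkr]
        ring
      rw [Finset.sum_congr rfl fun x _ => h4 x, ← Finset.mul_sum] at h3
      rcases mul_eq_zero.1 h3 with h5 | h5
      · exact absurd h5 hκ
      · exact h5
  intro l hl s
  have h3 := hK0 _ r r0 hS (l.map fun x => κ⁻¹ * x) (by rw [List.length_map, hl]) (κ⁻¹ * s)
  rw [dl_scale, List.map_map] at h3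
  have h4 : ((fun x => κ * x) ∘ fun x => κ⁻¹ * x) = (id : F → F) := by
    funext x
    change κ * (κ⁻¹ * x) = x
    rw [mul_inv_cancel_left₀ hκ]
  rw [h4, List.map_id, mul_inv_cancel_left₀ hκ] at h3
  rcases mul_eq_zero.1 h3 with h5 | h5
  · exact absurd h5 (inv_ne_zero hκ)
  · exact h5

theorem SEP_proof (F : Type) [Field F] [Fintype F] [CharP F 2] (h : ℕ) [NeZero h] [QF F h]
    (hS1 : S1Stmt F) (hNA : NAStmt F) (hKA : KAStmt F) : SepStmt F := by
  intro G K e hs
  have h2 : (2 : F) = 0 := CharTwo.two_eq_zero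
  obtain ⟨he, p, q, hgk⟩ := hS1 G K e hs
  have up : ∀ φ : F → F, (∀ l : List F, l.length = 2 → ∀ s, dl l φ s = 0) →
      ∀ l : List F, l.length = 3 → ∀ s, dl l φ s = 0 := by
    intro φ hφ l hl s
    obtain ⟨x, y, z, rfl⟩ := List.length_eq_three.1 hl
    rw [dl_cons]
    unfold Dx
    rw [hφ [y, z] rfl, hφ [y, z] rfl, add_zero]
  have h3 : (∀ l : List F, l.length = 3 → ∀ s, dl l (fun s => e⁻¹ * (G s + G 0 + p * s)) s = 0) ∧
      (∀ l : List F, l.length = 3 → ∀ s, dl l (fun t => e⁻¹ * (K t + K 0 + q * t)) s = 0) := by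
    rcases hNA _ _ hgk with h4 | h4
    · exact ⟨up _ h4, hKA _ _ hgk.symm h4⟩
    · exact ⟨hKA _ _ hgk h4, up _ h4⟩
  have hee : e * e⁻¹ = 1 := mul_inv_cancel₀ he
  have d3 : ∀ (φ : F → F) (w : F), (∀ l : List F, l.length = 3 → ∀ s,
      dl l (fun s => e⁻¹ * (φ s + φ 0 + w * s)) s = 0) → ∀ a b c,
      φ (a + b + c) + φ (a + b) + φ (a + c) + φ (b + c) + φ a + φ b + φ c + φ 0 = 0 := by
    intro φ w hφ a b c
    have h4 := hφ [a, b, c] rfl 0
    simp only [dl_cons, dl_nil] at h4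
    unfold Dx at h4
    simp only [zero_add] at h4
    have h5 : b + c + a = a + b + c := by ring
    have e1 : a + b = b + a := add_comm a b
    have e2 : a + b + c = a + b + c := rfl
    rw [mul_zero, add_zero] at h4
    have h6 : e * e⁻¹ * (φ (a + b + c) + φ (a + b) + (φ (a + c) + φ a) + (φ (b + c) + φ b +
        (φ c + φ 0))) = 0 := by
      linear_combination e * h4 - (e * e⁻¹ * (4 * φ 0 + w * (2 * a + 2 * b + 2 * c))) * h2
    rw [hee, one_mul] at h6
    linear_combination h6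
  intro u v w
  have h4 := d3 G p h3.1 u.1 v.1 w.1
  have h5 := d3 K q h3.2 u.2 v.2 w.2
  simp only [Prod.fst_add, Prod.snd_add, Prod.fst_zero, Prod.snd_zero]
  linear_combination h4 + h5 + (e * (2 * (u.1 * u.2 + v.1 * v.2 + w.1 * w.2) + u.1 * v.2 + u.2 * v.1
    + u.1 * w.2 + u.2 * w.1 + v.1 * w.2 + v.2 * w.1)) * h2

theorem sep_all (F : Type) [Field F] [Fintype F] [CharP F 2] (h : ℕ) [NeZero h] [QF F h] :
    SepStmt F :=
  SEP_proof F h (S1_proof F h) (NA_proof F h (SP1_proof F h) (GK_proof F h))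
    (KA_proof F h (PAY_proof F h) (KA0_proof F h (SP1_proof F h) (FSUP_proof F h)))

end Pool.Agent.H51.SEP
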