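import Pool.Agent.H51.SEP.DEG
import Pool.Agent.H51.SEP.GK
import Pool.Agent.H51.QOV.P2

/-!
# NA
-/

set_option autoImplicit false
set_option linter.unusedSectionVars false

namespace Pool.Agent.H51.SEP

open Finset Pool.Agent.H51.QOV Pool.Agent.H51.QOV.P2

variable {F : Type} [Field F] [Fintype F] [CharP F 2] {h : ℕ} [NeZero h]

theorem SNF.symm {g k : F → F} (hgk : SNF g k) : SNF k g where
  g0 := hgk.k0
  k0 := hgk.g0
  ov := by
    intro s t s' t' hne h1
    refine hgk.ov t s t' s' ?_ ?_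
    · intro h2
      apply hne
      rw [Prod.mk.injEq] at h2 ⊢
      exact ⟨h2.2, h2.1⟩
    · linear_combination h1
  pg := hgk.pk
  pk := hgk.pg

/-- differences of a function with constant trace. -/
theorem tr_dl {ψ : F → F} {c : F} {z : F} (hψ : ∀ s, tr h (c * ψ s) = z) (l : List F) (hl : l ≠ [])
    (s : F) : tr h (c * dl l ψ s) = 0 := by
  induction l generalizing s with
  | nil => exact absurd rfl hl
  | cons x l ih =>
    rw [dl_cons]
    unfold Dx
    rw [mul_add, tr_add]
    by_cases hl' : l = []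
    · rw [hl', dl_nil, hψ, hψ, CharTwo.add_self_eq_zero]
    · rw [ih hl', ih hl', add_zero]

/-- differences and the missing slope. -/
theorem p_dl {g : F → F} (hp : ∀ s, ∑ x : F, x⁻¹ * (g (s + x) + g s) = 0) (l : List F) (s : F) :
    ∑ x : F, x⁻¹ * dl l (Dx x g) s = 0 := by
  induction l generalizing s with
  | nil => exact hp s
  | cons y l ih =>
    have h1 : ∀ x : F, x⁻¹ * dl (y :: l) (Dx x g) s =
        x⁻¹ * dl l (Dx x g) (s + y) + x⁻¹ * dl l (Dx x g) s := by
      intro x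
      rw [dl_cons]
      unfold Dx
      ring
    rw [Finset.sum_congr rfl fun x _ => h1 x, Finset.sum_add_distrib, ih, ih, add_zero]

theorem sd_dl (l : List F) (g : F → F) (x y : F) :
    sd (dl l g) x y = dl (x :: l) (Dx y g) 0 := by
  rw [sd_eq, dl_cons, dl_cons, dl_nil, dl_cons, dl_comm]

/-- the inversion formula. -/
theorem inv_f [QF F h] (k : F → F) {c : F} (hc : c ≠ 0) (t : F) :
    ∑ a : F, Wk h k c a * chi h (c * a * t) = (Fintype.card F : ℤ) * chi h (c * k t) := by
  classical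
  have h1 : ∀ a : F, Wk h k c a * chi h (c * a * t) =
      ∑ t' : F, chi h (c * k t') * chi h (c * (t + t') * a) := by
    intro a
    change (∑ t' : F, chi h (c * k t' + c * a * t')) * chi h (c * a * t) = _
    rw [Finset.sum_mul]
    refine Finset.sum_congr rfl fun t' _ => ?_
    rw [← chi_add, ← chi_add]
    congr 1
    ring
  rw [Finset.sum_congr rfl fun a _ => h1 a, Finset.sum_comm]
  have h2 : ∀ t' : F, ∑ a : F, chi h (c * k t') * chi h (c * (t + t') * a) =
      if t' = t then (Fintype.card F : ℤ) * chi h (c * k t) else 0 := by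
    intro t'
    rw [← Finset.mul_sum]
    split_ifs with h3
    · subst h3
      have h4 : ∀ a : F, chi h (c * (t' + t') * a) = 1 := by
        intro a
        rw [CharTwo.add_self_eq_zero, mul_zero, zero_mul, chi_zero]
      rw [Finset.sum_congr rfl fun a _ => h4 a, Finset.sum_const, Finset.card_univ, nsmul_eq_mul,
        mul_one]
      ring
    · have h4 : c * (t + t') ≠ 0 := mul_ne_zero hc fun h5 => h3 (CharTwo.add_eq_zero.1 h5).symm
      rw [sum_chi h4, mul_zero]
  rw [Finset.sum_congr rfl fun t' _ => h2 t', Finset.sum_ite_eq' univ t, if_pos (Finset.mem_univ _)]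

/-- invariance. -/
theorem shift_inv [QF F h] (k : F → F) {c : F} (hc : c ≠ 0) (n : F)
    (hn : ∀ a, Wk h k c a ≠ 0 → tr h (n * a) = 0) (t : F) :
    tr h (c * (k (t + c⁻¹ * n) + k t)) = 0 := by
  have h1 := inv_f (h := h) k hc t
  have h2 := inv_f (h := h) k hc (t + c⁻¹ * n)
  have h3 : ∀ a : F, Wk h k c a * chi h (c * a * (t + c⁻¹ * n)) = Wk h k c a * chi h (c * a * t) := by
    intro a
    by_cases hW : Wk h k c a = 0
    · rw [hW, zero_mul, zero_mul]
    · have h4 : c * a * (t + c⁻¹ * n) = c * a * t + n * a := by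
        field_simp
      have h5 : chi h (n * a) = 1 := by
        unfold chi
        rw [if_pos (hn a hW)]
      rw [h4, chi_add, h5, mul_one]
  rw [Finset.sum_congr rfl fun a _ => h3 a, h1] at h2
  have hq : (Fintype.card F : ℤ) ≠ 0 := by
    have : 0 < Fintype.card F := Fintype.card_pos
    exact_mod_cast this.ne'
  have h4 := mul_left_cancel₀ hq h2
  refine chi_one ?_
  rw [mul_add, chi_add, ← h4, chi_sq]

theorem NA_proof (F : Type) [Field F] [Fintype F] [CharP F 2] (h : ℕ) [NeZero h] [QF F h]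
    (hSP : SP1Stmt F h) (hGK : GKStmt F h) : NAStmt F := by
  classical
  intro g k hgk
  by_contra hcon
  push Not at hcon
  obtain ⟨hg, hk⟩ := hcon
  obtain ⟨lg, hg3, l1, hl1, s1, hs1⟩ := DEG_proof F g 2 hg
  obtain ⟨lk, hk3, l2, hl2, s2, hs2⟩ := DEG_proof F k 2 hk
  have aG : ∀ x, sdm (dl lg g) hg3 x x = 0 := fun x => sd_self _ x
  have aK : ∀ x, sdm (dl lk k) hk3 x x = 0 := fun x => sd_self _ x
  have pG : ∀ x, ∑ s : F, s⁻¹ * sdm (dl lg g) hg3 x s = 0 := by
    intro x
    have h1 : ∀ s : F, sdm (dl lg g) hg3 x s = dl (x :: lg) (Dx s g) 0 := fun s => by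
      rw [sdm_apply, sd_dl]
    simp only [h1]
    exact p_dl hgk.pg _ _
  have pK : ∀ x, ∑ s : F, s⁻¹ * sdm (dl lk k) hk3 x s = 0 := by
    intro x
    have h1 : ∀ s : F, sdm (dl lk k) hk3 x s = dl (x :: lk) (Dx s k) 0 := fun s => by
      rw [sdm_apply, sd_dl]
    simp only [h1]
    exact p_dl hgk.pk _ _
  have H : ∀ c : F, c ≠ 0 → ∀ x y, tr h (c⁻¹ * (adj h (sdm (dl lg g) hg3 x) c *
      adj h (sdm (dl lk k) hk3 y) c)) = 0 := by
    intro c hc x y
    obtain ⟨n, hn⟩ : ∃ n, n = adj h (sdm (dl lg g) hg3 x) c := ⟨_, rfl⟩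
    have h1 : ∀ a, Wk h k c a ≠ 0 → tr h (n * a) = 0 := by
      intro a hW
      rw [hn, ← adj_eq, sdm_apply, sd_dl]
      exact tr_dl (hSP g k hgk c hc a hW) _ (by simp) _
    have h2 := shift_inv k hc n h1
    have h3 : tr h (c * dl (y :: lk) (Dx (c⁻¹ * n) k) 0) = 0 :=
      tr_dl (ψ := Dx (c⁻¹ * n) k) h2 _ (by simp) _
    rw [← sd_dl] at h3
    have h4 := adj_eq (h := h) (sdm (dl lk k) hk3 y) c (c⁻¹ * n)
    rw [sdm_apply, h3] at h4
    rw [← hn, h4]
    congr 1
    ring
  rcases hGK _ _ aG aK pG pK H with h1 | h1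
  · apply hs1
    obtain ⟨x, y, rfl⟩ := List.length_eq_two.1 hl1
    rw [sd_const hg3]
    exact h1 x y
  · apply hs2
    obtain ⟨x, y, rfl⟩ := List.length_eq_two.1 hl2
    rw [sd_const hk3]
    exact h1 x y

end Pool.Agent.H51.SEP
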