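import Pool.Agent.H51.QOV.Stmt

/-!
# SEP: separated ovoids. Definitions.
-/

set_option autoImplicit false
set_option linter.unusedSectionVars false

namespace Pool.Agent.H51.SEP

open Finset Pool.Agent.H51.QOV

section
variable {F : Type} [Field F] [Fintype F] [CharP F 2]

/-- difference in direction `x`. -/
def Dx (x : F) (φ : F → F) : F → F := fun s => φ (s + x) + φ s

/-- iterated difference. -/
def dl (l : List F) (φ : F → F) : F → F := l.foldr Dx φ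

/-- the second difference at `0`. -/
def sd (φ : F → F) (x y : F) : F := φ (x + y) + φ x + φ y + φ 0

/-- normal form of a separated ovoid function `g s + k t + s t`. -/
structure SNF (g k : F → F) : Prop where
  g0 : g 0 = 0
  k0 : k 0 = 0
  ov : ∀ s t s' t' : F, (s, t) ≠ (s', t') → g s + g s' + (k t + k t') + (s + s') * (t + t') ≠ 0
  pg : ∀ s, ∑ x : F, x⁻¹ * (g (s + x) + g s) = 0
  pk : ∀ s, ∑ x : F, x⁻¹ * (k (s + x) + k s) = 0

end

variable (F : Type) [Field F] [Fintype F] [CharP F 2] (h : ℕ) [NeZero h]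

/-- S1. -/
def S1Stmt : Prop :=
  ∀ (G K : F → F) (e : F), Slope (fun u : F × F => G u.1 + K u.2 + e * (u.1 * u.2)) →
    e ≠ 0 ∧ ∃ p q : F, SNF (fun s => e⁻¹ * (G s + G 0 + p * s)) (fun t => e⁻¹ * (K t + K 0 + q * t))

variable {F} in
/-- the Walsh coefficient is non-zero. -/
noncomputable def Wk (h : ℕ) [NeZero h] (k : F → F) (c a : F) : ℤ := by
  classical exact ∑ t : F, (if tr h (c * k t + c * a * t) = 0 then 1 else -1)

/-- SP1. -/
def SP1Stmt : Prop :=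
  ∀ g k : F → F, SNF g k → ∀ c : F, c ≠ 0 → ∀ a : F, Wk h k c a ≠ 0 →
    ∀ s, tr h (c * (g (s + a) + g s)) = 1

/-- DEG. -/
def DegStmt : Prop :=
  ∀ (φ : F → F) (m : ℕ), (∃ l : List F, l.length = m ∧ ∃ s, dl l φ s ≠ 0) →
    ∃ l0 : List F, (∀ l : List F, l.length = m + 1 → ∀ s, dl l (dl l0 φ) s = 0) ∧
      ∃ l : List F, l.length = m ∧ ∃ s, dl l (dl l0 φ) s ≠ 0

variable {F} in
/-- the adjoint. -/
def adj (h : ℕ) [NeZero h] (φ : F → F) (c : F) : F := coef (0 : ZMod h) fun s => tr h (c * φ s)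

/-- GK. -/
def GKStmt : Prop :=
  ∀ G K : F →+ F →+ F, (∀ x, G x x = 0) → (∀ x, K x x = 0) →
    (∀ x, ∑ s : F, s⁻¹ * G x s = 0) → (∀ x, ∑ s : F, s⁻¹ * K x s = 0) →
    (∀ c : F, c ≠ 0 → ∀ x y, tr h (c⁻¹ * (adj h (G x) c * adj h (K y) c)) = 0) →
    (∀ x y, G x y = 0) ∨ (∀ x y, K x y = 0)

/-- NA: one of the two functions is affine. -/
def NAStmt : Prop :=
  ∀ g k : F → F, SNF g k →
    (∀ l : List F, l.length = 2 → ∀ s, dl l g s = 0) ∨
    (∀ l : List F, l.length = 2 → ∀ s, dl l k s = 0)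

/-- FSUP. -/
def FSupStmt : Prop :=
  ∀ r : ZMod h, r ≠ 0 → r ≠ -1 → 2 * r ≠ 0 → ∀ d : F →+ F →+ F, (∀ s, d s s = 0) →
    (∀ x, ∑ s : F, s⁻¹ * d x s = 0) →
    (∀ x y : F, y ≠ 0 → tr h ((fr r y)⁻¹ * d x (y⁻¹ * fr r y)) = 0) →
    ∃ α : F, ∀ x s, d x s = α * (fr (1 : ZMod h) x * fr r s + fr r x * fr (1 : ZMod h) s)

/-- KA0: the case `k = fr r`. -/
def KA0Stmt : Prop :=
  ∀ (g : F → F) (r : ZMod h), r ≠ 0 → SNF g (fun t => fr r t) →
    ∀ l : List F, l.length = 3 → ∀ s, dl l g s = 0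

/-- KA: `k` affine. -/
def KAStmt : Prop :=
  ∀ g k : F → F, SNF g k → (∀ l : List F, l.length = 2 → ∀ s, dl l k s = 0) →
    ∀ l : List F, l.length = 3 → ∀ s, dl l g s = 0

/-- the result on functions. -/
def SepStmt : Prop :=
  ∀ (G K : F → F) (e : F), Slope (fun u : F × F => G u.1 + K u.2 + e * (u.1 * u.2)) →
    Quad (fun u : F × F => G u.1 + K u.2 + e * (u.1 * u.2))

end Pool.Agent.H51.SEP
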