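import Pool.Agent.H51.SEP.MAIN

/-!
# TOP for separated ovoids
-/

set_option autoImplicit false
set_option linter.unusedSectionVars false
set_option linter.style.haveILetI false

namespace Pool.Agent.H51.SEP

open Pool.Agent.H51.QOV

theorem sep_top :
    ∀ (F : Type) [Field F] [Fintype F] (S : Set (Projectivization F (Fin 4 → F))) (h : ℕ),
      4 ≤ h → Fintype.card F = 2 ^ h →
      S.ncard = Fintype.card F ^ 2 + 1 →
      (∀ f : Fin 3 → Projectivization F (Fin 4 → F), Function.Injective f →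
          (∀ i, f i ∈ S) → LinearIndependent F (fun i => (f i).rep)) →
      (∃ A : (Fin 4 → F) ≃ₗ[F] (Fin 4 → F), ∃ (G K : F → F) (e : F),
        ∀ p, p ∈ S ↔
          ((∃ s t c : F, A ![1, s, t, G s + K t + e * (s * t)] = c • p.rep) ∨
           ∃ c : F, A ![0, 0, 0, 1] = c • p.rep)) →
      (∃ Q : QuadraticForm F (Fin 4 → F), ∀ p, p ∈ S ↔ Q p.rep = 0) ∨
      (∃ e : ℕ, 1 ≤ e ∧ Fintype.card F = 2 ^ (2 * e + 1) ∧
        ∃ A : (Fin 4 → F) ≃ₗ[F] (Fin 4 → F), ∀ p, p ∈ S ↔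
          ((∃ s t c : F,
              A ![1, s, t, s ^ (2 ^ (e + 1)) + s * t + t ^ (2 ^ (e + 1) + 2)] = c • p.rep) ∨
           ∃ c : F, A ![0, 0, 0, 1] = c • p.rep)) := by
  intro F _ _ S h h4 hcard hnc hcap hgraph
  haveI : NeZero h := ⟨by omega⟩
  haveI : CharP F 2 := charP_of_card_eq_prime_pow (f := h) hcard
  haveI : QF F h := ⟨hcard, h4⟩
  obtain ⟨A, G, K, e, hmem⟩ := hgraph
  have hsl := top_slope S hcap A (fun s t => G s + K t + e * (s * t)) hmem
  have hq := sep_all F h G K e hsl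
  refine all_top F S h h4 hcard hnc hcap ⟨A, fun s t => G s + K t + e * (s * t), ?_, hmem⟩
  intro s₁ t₁ s₂ t₂ s₃ t₃
  exact hq (s₁, t₁) (s₂, t₂) (s₃, t₃)

end Pool.Agent.H51.SEP
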